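import Mathlib

set_option autoImplicit false

/-!
# T1: LP duality for fractional coverings (Hahn-Banach and Riesz-Markov-Kakutani)
-/

namespace Pool.Agent.H2R2.Frac

open MeasureTheory Module
open scoped Pointwise ENNReal CompactlySupported

section T1

set_option linter.unusedSectionVars false

variable {E : Type*} [NormedAddCommGroup E] [NormedSpace ℝ E] [FiniteDimensional ℝ E]
  [MeasurableSpace E] [BorelSpace E]

/-- the weighted covering function at a point -/
private noncomputable def T1_cov (P : Set E) (w : E →₀ ℝ) (x : E) : ℝ :=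
  w.sum (fun t a => (interior P).indicator (fun _ => a) (x - t))

/-- the total weight -/
private noncomputable def T1_tot (w : E →₀ ℝ) : ℝ := w.sum (fun _ a => a)

private theorem T1_cov_add (P : Set E) (w w' : E →₀ ℝ) (x : E) :
    T1_cov P (w + w') x = T1_cov P w x + T1_cov P w' x := by
  unfold T1_cov
  apply Finsupp.sum_add_index'
  · intro t; simp [Set.indicator]
  · intro t a b
    simp only [Set.indicator]
    split_ifs <;> simp

private theorem T1_tot_add (w w' : E →₀ ℝ) : T1_tot (w + w') = T1_tot w + T1_tot w' := by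
  unfold T1_tot
  apply Finsupp.sum_add_index'
  · intro t; rfl
  · intro t a b; rfl

private theorem T1_cov_smul (P : Set E) (c : ℝ) (w : E →₀ ℝ) (x : E) :
    T1_cov P (c • w) x = c * T1_cov P w x := by
  unfold T1_cov
  rw [Finsupp.sum_smul_index' (fun t => by simp [Set.indicator]), Finsupp.mul_sum]
  apply Finsupp.sum_congr
  intro t _
  simp only [Set.indicator, smul_eq_mul]
  split_ifs <;> simp

private theorem T1_tot_smul (c : ℝ) (w : E →₀ ℝ) : T1_tot (c • w) = c * T1_tot w := by
  unfold T1_tot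
  rw [Finsupp.sum_smul_index' (fun t => rfl), Finsupp.mul_sum]
  rfl

private theorem T1_tot_nonneg (w : E →₀ ℝ) (hw : ∀ t, 0 ≤ w t) : 0 ≤ T1_tot w :=
  Finsupp.sum_nonneg (fun t _ => hw t)

/-- admissible totals for a function on `P` -/
private def T1_S (P : Set E) (f : P → ℝ) : Set ℝ :=
  {r | ∃ w : E →₀ ℝ, (∀ t, 0 ≤ w t) ∧ (∀ x : P, f x ≤ T1_cov P w x) ∧ r = T1_tot w}

private noncomputable def T1_N (P : Set E) (f : P → ℝ) : ℝ := sInf (T1_S P f)

private theorem T1_bdd (P : Set E) (f : P → ℝ) : BddBelow (T1_S P f) := by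
  refine ⟨0, ?_⟩
  rintro r ⟨w, hw, _, rfl⟩
  exact T1_tot_nonneg w hw

private theorem T1_nonempty (P : Set E) (hPc : IsCompact P) (hPi : (interior P).Nonempty)
    (f : P → ℝ) (C : ℝ) (hC : ∀ x, f x ≤ C) : (T1_S P f).Nonempty := by
  classical
  obtain ⟨p, hp⟩ := hPi
  obtain ⟨T, hT⟩ := hPc.elim_finite_subcover (fun t : E => {x | x - t ∈ interior P})
    (fun t => isOpen_interior.preimage (continuous_id.sub continuous_const))
    (fun x _ => Set.mem_iUnion.mpr ⟨x - p, by simpa using hp⟩)
  let w : E →₀ ℝ := Finsupp.onFinset T (fun t => if t ∈ T then |C| else 0) (by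
    intro t ht
    by_contra h
    simp [h] at ht)
  have hw : ∀ t, 0 ≤ w t := by
    intro t
    simp only [w, Finsupp.onFinset_apply]
    split_ifs
    · exact abs_nonneg C
    · exact le_rfl
  refine ⟨T1_tot w, w, hw, ?_, rfl⟩
  intro x
  have hx := hT x.2
  simp only [Set.mem_iUnion, Set.mem_ofPred_eq, exists_prop] at hx
  obtain ⟨t, htT, ht⟩ := hx
  have h1 : f x ≤ w t := by
    have : w t = |C| := by simp [w, htT]
    rw [this]
    exact (hC x).trans (le_abs_self C)
  refine h1.trans ?_
  unfold T1_cov Finsupp.sum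
  by_cases hz : w t = 0
  · rw [hz]
    apply Finset.sum_nonneg
    intro s _
    exact Set.indicator_nonneg (fun _ _ => hw s) _
  · have hmem : t ∈ w.support := by simpa using hz
    have h2 : w t = (interior P).indicator (fun _ => w t) ((x : E) - t) := by
      rw [Set.indicator_of_mem ht]
    rw [h2]
    exact Finset.single_le_sum (f := fun s => (interior P).indicator (fun _ => w s) ((x : E) - s))
      (fun s _ => Set.indicator_nonneg (fun _ _ => hw s) _) hmem

private theorem T1_N_nonneg (P : Set E) (f : P → ℝ) : 0 ≤ T1_N P f := by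
  apply Real.sInf_nonneg
  rintro r ⟨w, hw, _, rfl⟩
  exact T1_tot_nonneg w hw

private theorem T1_N_smul_le (P : Set E) (f : P → ℝ) (hne : (T1_S P f).Nonempty) (c : ℝ)
    (hc : 0 < c) : T1_N P (fun x => c * f x) ≤ c * T1_N P f := by
  rw [← div_le_iff₀' hc]
  apply le_csInf hne
  rintro r ⟨w, hw, hf, rfl⟩
  rw [div_le_iff₀' hc]
  apply csInf_le (T1_bdd P _)
  refine ⟨c • w, fun t => ?_, fun x => ?_, ?_⟩
  · simpa using mul_nonneg hc.le (hw t)
  · rw [T1_cov_smul]
    exact mul_le_mul_of_nonneg_left (hf x) hc.le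
  · rw [T1_tot_smul]

private theorem T1_N_smul (P : Set E) (hPc : IsCompact P) (hPi : (interior P).Nonempty)
    (f : P → ℝ) (C : ℝ) (hC : ∀ x, |f x| ≤ C) (c : ℝ)
    (hc : 0 < c) : T1_N P (fun x => c * f x) = c * T1_N P f := by
  apply le_antisymm
  · exact T1_N_smul_le P f (T1_nonempty P hPc hPi f C (fun x => (le_abs_self _).trans (hC x))) c hc
  · have h1 := T1_N_smul_le P (fun x => c * f x)
      (T1_nonempty P hPc hPi _ (c * C) (fun x => by
        exact mul_le_mul_of_nonneg_left ((le_abs_self _).trans (hC x)) hc.le)) c⁻¹ (inv_pos.mpr hc)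
    have h2 : (fun x => c⁻¹ * (c * f x)) = f := by
      funext x
      rw [inv_mul_cancel_left₀ hc.ne']
    rw [h2] at h1
    have h3 := mul_le_mul_of_nonneg_left h1 hc.le
    rwa [mul_inv_cancel_left₀ hc.ne'] at h3

private theorem T1_N_add (P : Set E) (f g : P → ℝ) (hf : (T1_S P f).Nonempty)
    (hg : (T1_S P g).Nonempty) : T1_N P (fun x => f x + g x) ≤ T1_N P f + T1_N P g := by
  rw [← sub_le_iff_le_add]
  apply le_csInf hf
  rintro r' ⟨w', hw', hfw, rfl⟩
  rw [sub_le_comm]
  apply le_csInf hg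
  rintro r ⟨w, hw, hgw, rfl⟩
  rw [sub_le_iff_le_add']
  apply csInf_le (T1_bdd P _)
  refine ⟨w' + w, fun t => ?_, fun x => ?_, ?_⟩
  · simpa using add_nonneg (hw' t) (hw t)
  · rw [T1_cov_add]
    exact add_le_add (hfw x) (hgw x)
  · rw [T1_tot_add]

private theorem T1_N_le_zero (P : Set E) (f : P → ℝ) (hf : ∀ x, f x ≤ 0) : T1_N P f ≤ 0 := by
  apply csInf_le (T1_bdd P _)
  refine ⟨0, fun t => by simp, fun x => ?_, by simp [T1_tot]⟩
  simpa [T1_cov] using hf x

private theorem T1_N_le_one (P : Set E) (f : P → ℝ) (t : E)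
    (hf : ∀ x : P, f x ≤ (interior P).indicator (fun _ => 1) ((x : E) - t)) : T1_N P f ≤ 1 := by
  apply csInf_le (T1_bdd P _)
  refine ⟨Finsupp.single t 1, fun s => ?_, fun x => ?_, ?_⟩
  · by_cases h : t = s
    · subst h; simp
    · simp [h]
  · unfold T1_cov
    rw [Finsupp.sum_single_index (by simp [Set.indicator])]
    exact hf x
  · unfold T1_tot
    rw [Finsupp.sum_single_index rfl]

theorem exists_measure (P : Set E) (hPc : IsCompact P) (hPi : (interior P).Nonempty)
    (M : ℝ) (hM : 0 < M)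
    (hfrac : ∀ (T : Finset E) (w : E → ℝ), (∀ t ∈ T, 0 ≤ w t) →
      (∀ x ∈ P, 1 ≤ ∑ t ∈ T, (interior P).indicator (fun _ => w t) (x - t)) →
      M ≤ ∑ t ∈ T, w t) :
    ∃ μ : Measure E, IsProbabilityMeasure μ ∧ μ Pᶜ = 0 ∧
      ∀ t, μ {x | x - t ∈ interior P} ≤ ENNReal.ofReal (1 / M) := by
  classical
  have hcomp : CompactSpace P := isCompact_iff_compactSpace.mp hPc
  -- boundedness of continuous functions
  have hbdd : ∀ f : C_c(P, ℝ), ∃ C, ∀ x, |f x| ≤ C := by
    intro f
    obtain ⟨C, hC⟩ := (isCompact_range f.continuous).isBounded.exists_norm_le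
    exact ⟨C, fun x => hC _ ⟨x, rfl⟩⟩
  have hne : ∀ f : C_c(P, ℝ), (T1_S P f).Nonempty := by
    intro f
    obtain ⟨C, hC⟩ := hbdd f
    exact T1_nonempty P hPc hPi f C (fun x => (le_abs_self _).trans (hC x))
  let one : C_c(P, ℝ) := ⟨ContinuousMap.const P 1, HasCompactSupport.of_compactSpace _⟩
  have hone : ∀ x, one x = 1 := fun x => rfl
  let N : C_c(P, ℝ) → ℝ := fun f => T1_N P f
  have hNhom : ∀ c : ℝ, 0 < c → ∀ f, N (c • f) = c * N f := by
    intro c hc f
    obtain ⟨C, hC⟩ := hbdd f
    exact T1_N_smul P hPc hPi f C hC c hc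
  have hNadd : ∀ f g, N (f + g) ≤ N f + N g := by
    intro f g
    exact T1_N_add P f g (hne f) (hne g)
  have hNnn : ∀ f, 0 ≤ N f := fun f => T1_N_nonneg P f
  have hN1 : M ≤ N one := by
    apply le_csInf (hne one)
    rintro r ⟨w, hw, h1, rfl⟩
    apply hfrac w.support w (fun t _ => hw t)
    intro x hx
    exact h1 ⟨x, hx⟩
  have hone0 : one ≠ 0 := by
    intro h
    obtain ⟨p, hp⟩ := hPi
    have h1 : one ⟨p, interior_subset hp⟩ = 0 := by rw [h]; rfl
    rw [hone] at h1
    exact one_ne_zero h1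
  obtain ⟨l, hl1, hlN⟩ := exists_extension_of_le_sublinear
    (LinearPMap.mkSpanSingleton (K := ℝ) one (N one) hone0) N hNhom hNadd (by
      rintro ⟨x, hx⟩
      obtain ⟨c, rfl⟩ := Submodule.mem_span_singleton.mp hx
      rw [LinearPMap.mkSpanSingleton'_apply]
      simp only [smul_eq_mul, RingHom.id_apply]
      rcases lt_trichotomy c 0 with hc | hc | hc
      · exact (mul_nonpos_of_nonpos_of_nonneg hc.le (hNnn one)).trans (hNnn _)
      · subst hc
        rw [zero_mul]
        exact hNnn _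
      · exact (hNhom c hc one).ge)
  have hl_one : l one = N one := by
    have h1 := hl1 ⟨one, Submodule.mem_span_singleton_self one⟩
    rw [LinearPMap.mkSpanSingleton'_apply_self] at h1
    exact h1
  have hlpos : ∀ f : C_c(P, ℝ), 0 ≤ f → 0 ≤ l f := by
    intro f hf
    have h1 : l (-f) ≤ 0 := by
      refine (hlN (-f)).trans (T1_N_le_zero P _ ?_)
      intro x
      have : 0 ≤ f x := hf x
      simpa using this
    rw [map_neg] at h1
    linarith
  let Λ : C_c(P, ℝ) →ₚ[ℝ] ℝ := PositiveLinearMap.mk₀ l hlpos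
  have hΛ : ∀ f, Λ f = l f := fun f => rfl
  let m := RealRMK.rieszMeasure Λ
  have hint : ∀ f : C_c(P, ℝ), ∫ x, f x ∂m = l f := fun f => RealRMK.integral_rieszMeasure Λ f
  have hmtot : m.real Set.univ = N one := by
    rw [← hl_one, ← hint one]
    simp [hone]
  have hLpos : 0 < N one := hM.trans_le hN1
  have hmtot' : m Set.univ = ENNReal.ofReal (N one) := by
    rw [← hmtot, Measure.real, ENNReal.ofReal_toReal]
    exact (isCompact_univ.measure_lt_top (μ := m)).ne
  have hmU : ∀ t : E, m {x : P | (x : E) - t ∈ interior P} ≤ 1 := by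
    intro t
    have hopen : IsOpen {x : P | (x : E) - t ∈ interior P} :=
      isOpen_interior.preimage (continuous_subtype_val.sub continuous_const)
    rw [hopen.measure_eq_iSup_isCompact]
    refine iSup_le fun K => iSup_le fun hKU => iSup_le fun hK => ?_
    obtain ⟨f, hf1, hf0, hfc, hf01⟩ := exists_continuous_one_zero_of_isCompact hK
      hopen.isClosed_compl (Set.disjoint_compl_right_iff_subset.mpr hKU)
    let g : C_c(P, ℝ) := ⟨f, hfc⟩
    have hg : ∀ x, g x = f x := fun x => rfl
    have h1 : m K ≤ ENNReal.ofReal (Λ g) :=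
      RealRMK.rieszMeasure_le_of_eq_one Λ (fun x => (hf01 x).1) hK (fun x hx => hf1 hx)
    refine h1.trans ?_
    rw [hΛ]
    have h2 : l g ≤ 1 := by
      refine (hlN g).trans (T1_N_le_one P g t ?_)
      intro x
      by_cases hx : (x : E) - t ∈ interior P
      · rw [Set.indicator_of_mem hx]
        exact (hf01 x).2
      · rw [Set.indicator_of_notMem hx]
        exact (hf0 hx).le
    calc ENNReal.ofReal (l g) ≤ ENNReal.ofReal 1 := ENNReal.ofReal_le_ofReal h2
      _ = 1 := ENNReal.ofReal_one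
  have hemb : MeasurableEmbedding (Subtype.val : P → E) :=
    MeasurableEmbedding.subtype_coe hPc.measurableSet
  refine ⟨(ENNReal.ofReal (N one))⁻¹ • m.map (Subtype.val : P → E), ⟨?_⟩, ?_, ?_⟩
  · rw [Measure.smul_apply, hemb.map_apply, Set.preimage_univ, hmtot', smul_eq_mul]
    apply ENNReal.inv_mul_cancel
    · simpa using hLpos
    · exact ENNReal.ofReal_ne_top
  · rw [Measure.smul_apply, hemb.map_apply]
    have : (Subtype.val : P → E) ⁻¹' Pᶜ = ∅ := by
      ext x; simp
    rw [this, measure_empty, smul_zero]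
  · intro t
    rw [Measure.smul_apply, hemb.map_apply, smul_eq_mul]
    calc (ENNReal.ofReal (N one))⁻¹ * m ((Subtype.val : P → E) ⁻¹' {x | x - t ∈ interior P})
        ≤ (ENNReal.ofReal (N one))⁻¹ * 1 := by
          gcongr
          exact hmU t
      _ = ENNReal.ofReal (N one)⁻¹ := by
          rw [mul_one, ENNReal.ofReal_inv_of_pos hLpos]
      _ ≤ ENNReal.ofReal (1 / M) := by
          apply ENNReal.ofReal_le_ofReal
          rw [one_div]
          exact inv_anti₀ hM hN1

end T1

end Pool.Agent.H2R2.Frac
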