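import Mathlib

set_option autoImplicit false

/-! T10: a parallelotope is covered by `2 ^ d` translates of its interior. -/

namespace Pool.Agent.H2R2.Frac

open MeasureTheory Module
open scoped Pointwise ENNReal

/-- T10: a parallelotope is covered by `2 ^ d` translates of its interior. -/
theorem box_cover {E : Type*} [NormedAddCommGroup E] [NormedSpace ℝ E] [FiniteDimensional ℝ E]
    (b : Basis (Fin (finrank ℝ E)) ℝ (Dual ℝ E)) (c h : Fin (finrank ℝ E) → ℝ)
    (hh : ∀ i, 0 < h i) (P : Set E) (hP : P = {x | ∀ i, c i ≤ b i x ∧ b i x ≤ c i + h i}) :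
    ∃ T : Finset E, T.card ≤ 2 ^ finrank ℝ E ∧ ∀ x ∈ P, ∃ t ∈ T, x - t ∈ interior P := by
  classical
  have hex : ∀ f : Fin (finrank ℝ E) → ℝ, ∃ x : E, ∀ i, b i x = f i := by
    intro f
    refine ⟨(Module.evalEquiv ℝ E).symm (b.constr ℝ f), fun i => ?_⟩
    rw [Module.apply_evalEquiv_symm_apply, Basis.constr_basis]
  choose g hg using hex
  have hopen : IsOpen {x : E | ∀ i, c i < b i x ∧ b i x < c i + h i} := by
    have h1 : {x : E | ∀ i, c i < b i x ∧ b i x < c i + h i} =
        ⋂ i, {x : E | c i < b i x ∧ b i x < c i + h i} := by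
      ext x; simp
    rw [h1]
    refine isOpen_iInter_of_finite fun i => ?_
    have hc : Continuous (b i) := (b i).continuous_of_finiteDimensional
    exact (isOpen_lt continuous_const hc).inter (isOpen_lt hc continuous_const)
  have hsub : {x : E | ∀ i, c i < b i x ∧ b i x < c i + h i} ⊆ interior P := by
    apply interior_maximal _ hopen
    rw [hP]
    intro x hx i
    exact ⟨(hx i).1.le, (hx i).2.le⟩
  refine ⟨Finset.univ.image (fun e : Fin (finrank ℝ E) → Bool =>
    g (fun i => if e i then h i / 4 else -(h i / 4))), ?_, ?_⟩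
  · refine Finset.card_image_le.trans ?_
    simp
  · intro x hx
    rw [hP] at hx
    refine ⟨g (fun i => if decide (c i + h i / 2 < b i x) then h i / 4 else -(h i / 4)), ?_,
      hsub ?_⟩
    · exact Finset.mem_image.2 ⟨fun i => decide (c i + h i / 2 < b i x), Finset.mem_univ _, rfl⟩
    · intro i
      have h1 := hx i
      have h2 := hh i
      rw [map_sub, hg]
      by_cases h3 : c i + h i / 2 < b i x
      · simp only [h3, decide_true, if_true]
        constructor <;> linarith
      · simp only [h3, decide_false, Bool.false_eq_true, if_false]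
        rw [not_lt] at h3
        constructor <;> linarith

end Pool.Agent.H2R2.Frac
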