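import Mathlib

set_option autoImplicit false

namespace Pool.Agent.H2R2.Frac

open MeasureTheory Module
open scoped Pointwise ENNReal
open scoped InnerProductSpace
open Metric

/-- T11: cross-bodies need total weight `2 ^ d`. -/
theorem cross_lower (d : ℕ) (K : Set (EuclideanSpace ℝ (Fin d)))
    (o : EuclideanSpace ℝ (Fin d)) (v : Fin d → EuclideanSpace ℝ (Fin d)) (t : Fin d → ℝ)
    (hv : LinearIndependent ℝ v) (ht : ∀ i, 0 < t i)
    (hK : K = convexHull ℝ (Set.range (fun i => o + v i) ∪ Set.range (fun i => o - t i • v i)))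
    (hd : 1 ≤ d)
    (H : Finset (EuclideanSpace ℝ (Fin d) × ℝ)) (w : EuclideanSpace ℝ (Fin d) × ℝ → ℝ)
    (hw : ∀ h ∈ H, 0 ≤ w h)
    (hsep : ∀ u : EuclideanSpace ℝ (Fin d), u ≠ 0 →
        1 ≤ ∑ h ∈ H, {h : EuclideanSpace ℝ (Fin d) × ℝ | ⟪h.1, o⟫_ℝ < h.2 ∧
          ∀ x ∈ K, (∀ y ∈ K, ⟪u, y⟫_ℝ ≤ ⟪u, x⟫_ℝ) → h.2 < ⟪h.1, x⟫_ℝ}.indicator w h) :
    2 ^ d ≤ ∑ h ∈ H, w h := by
  classical
  have hcard : Fintype.card (Fin d) = finrank ℝ (EuclideanSpace ℝ (Fin d)) := by simp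
  have : Nonempty (Fin d) := ⟨⟨0, hd⟩⟩
  let B := basisOfLinearIndependentOfCardEqFinrank hv hcard
  have hB : ∀ i, B i = v i := fun i => by simp [B]
  -- the test vectors
  have hu : ∀ e : Fin d → Bool, ∃ u : EuclideanSpace ℝ (Fin d),
      ∀ i, ⟪u, v i⟫_ℝ = if e i then 1 else -(1 / t i) := by
    intro e
    refine ⟨(InnerProductSpace.toDual ℝ (EuclideanSpace ℝ (Fin d))).symm
      (LinearMap.toContinuousLinearMap
        (B.constr ℝ (fun i => if e i then (1 : ℝ) else -(1 / t i)))), fun i => ?_⟩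
    rw [InnerProductSpace.toDual_symm_apply, ← hB i, LinearMap.coe_toContinuousLinearMap',
      Basis.constr_basis]
  choose u hu using hu
  have hu0 : ∀ e, u e ≠ 0 := by
    intro e h0
    have h1 := hu e ⟨0, hd⟩
    rw [h0, inner_zero_left] at h1
    split_ifs at h1
    · exact zero_ne_one h1
    · have := one_div_pos.mpr (ht ⟨0, hd⟩)
      linarith
  have hmax : ∀ e, ∀ y ∈ K, ⟪u e, y⟫_ℝ ≤ ⟪u e, o⟫_ℝ + 1 := by
    intro e y hy
    rw [hK] at hy
    have hconv : Convex ℝ {y : EuclideanSpace ℝ (Fin d) | ⟪u e, y⟫_ℝ ≤ ⟪u e, o⟫_ℝ + 1} := by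
      have := convex_halfSpace_le (𝕜 := ℝ) (f := fun y : EuclideanSpace ℝ (Fin d) => ⟪u e, y⟫_ℝ)
        (innerₛₗ ℝ (u e)).isLinear (⟪u e, o⟫_ℝ + 1)
      exact this
    refine convexHull_min ?_ hconv hy
    rintro z (⟨i, rfl⟩ | ⟨i, rfl⟩)
    · show ⟪u e, o + v i⟫_ℝ ≤ ⟪u e, o⟫_ℝ + 1
      rw [inner_add_right, hu e i]
      have := one_div_pos.mpr (ht i)
      split_ifs <;> linarith
    · show ⟪u e, o - t i • v i⟫_ℝ ≤ ⟪u e, o⟫_ℝ + 1
      rw [inner_sub_right, inner_smul_right, hu e i]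
      have h1 := ht i
      split_ifs
      · linarith
      · have : t i * -(1 / t i) = -1 := by field_simp
        rw [this]; linarith
  -- the two end points are maximisers
  have hplus : ∀ e i, e i = true → (o + v i) ∈ K ∧ ∀ y ∈ K, ⟪u e, y⟫_ℝ ≤ ⟪u e, o + v i⟫_ℝ := by
    intro e i hei
    refine ⟨?_, fun y hy => ?_⟩
    · rw [hK]; exact subset_convexHull ℝ _ (Or.inl ⟨i, rfl⟩)
    · rw [inner_add_right, hu e i, if_pos hei]; exact hmax e y hy
  have hminus : ∀ e i, e i = false →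
      (o - t i • v i) ∈ K ∧ ∀ y ∈ K, ⟪u e, y⟫_ℝ ≤ ⟪u e, o - t i • v i⟫_ℝ := by
    intro e i hei
    refine ⟨?_, fun y hy => ?_⟩
    · rw [hK]; exact subset_convexHull ℝ _ (Or.inr ⟨i, rfl⟩)
    · have h1 := ht i
      rw [inner_sub_right, inner_smul_right, hu e i, if_neg (by simp [hei])]
      have : t i * -(1 / t i) = -1 := by field_simp
      rw [this]
      have := hmax e y hy
      linarith
  let A : (Fin d → Bool) → Set (EuclideanSpace ℝ (Fin d) × ℝ) := fun e =>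
    {h | ⟪h.1, o⟫_ℝ < h.2 ∧
      ∀ x ∈ K, (∀ y ∈ K, ⟪u e, y⟫_ℝ ≤ ⟪u e, x⟫_ℝ) → h.2 < ⟪h.1, x⟫_ℝ}
  have key : ∀ e e' : Fin d → Bool, ∀ i, e i = true → e' i = false → ∀ h, h ∈ A e → h ∉ A e' := by
    intro e e' i he he' h h1 h2
    have a1 := h1.2 _ (hplus e i he).1 (hplus e i he).2
    have a2 := h2.2 _ (hminus e' i he').1 (hminus e' i he').2
    have a3 := h1.1
    rw [inner_add_right] at a1
    rw [inner_sub_right, inner_smul_right] at a2
    have h4 := ht i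
    have h5 : 0 < ⟪h.1, v i⟫_ℝ := by linarith
    have h6 : 0 < t i * ⟪h.1, v i⟫_ℝ := mul_pos h4 h5
    linarith
  have hdisj : ∀ e e' : Fin d → Bool, e ≠ e' → ∀ h, h ∈ A e → h ∉ A e' := by
    intro e e' hne h h1 h2
    obtain ⟨i, hi⟩ := Function.ne_iff.mp hne
    cases he : e i <;> cases he' : e' i
    · rw [he, he'] at hi; exact hi rfl
    · exact key e' e i he' he h h2 h1
    · exact key e e' i he he' h h1 h2
    · rw [he, he'] at hi; exact hi rfl
  calc (2 : ℝ) ^ d = ∑ _e : Fin d → Bool, (1 : ℝ) := by simp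
    _ ≤ ∑ e : Fin d → Bool, ∑ h ∈ H, (A e).indicator w h :=
        Finset.sum_le_sum fun e _ => hsep (u e) (hu0 e)
    _ = ∑ h ∈ H, ∑ e : Fin d → Bool, (A e).indicator w h := Finset.sum_comm
    _ ≤ ∑ h ∈ H, w h := by
        refine Finset.sum_le_sum fun h hh => ?_
        by_cases hex : ∃ e, h ∈ A e
        · obtain ⟨e, he⟩ := hex
          rw [Finset.sum_eq_single e]
          · rw [Set.indicator_of_mem he]
          · intro e' _ hne
            exact Set.indicator_of_notMem (hdisj e e' hne.symm h he) _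
          · intro hn; exact absurd (Finset.mem_univ e) hn
        · push Not at hex
          rw [Finset.sum_eq_zero fun e _ => Set.indicator_of_notMem (hex e) _]
          exact hw h hh

end Pool.Agent.H2R2.Frac
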