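import Mathlib

set_option autoImplicit false

/-!
Equality in the second moment inequality: the measure of `z - P` is constant on `2 P`.
-/

namespace Pool.Agent.H2R2.Frac

open MeasureTheory Module
open scoped Pointwise ENNReal

section T2

variable {E : Type*} [NormedAddCommGroup E] [NormedSpace ℝ E] [FiniteDimensional ℝ E]
  [MeasurableSpace E] [BorelSpace E]

/-- indicator function of `P` with values in `ℝ≥0∞` -/
noncomputable def T2_ind (P : Set E) (x : E) : ℝ≥0∞ := P.indicator (fun _ => 1) x

omit [NormedSpace ℝ E] [FiniteDimensional ℝ E] in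
theorem T2_ind_meas (P : Set E) (hP : MeasurableSet P) : Measurable (T2_ind P) :=
  measurable_const.indicator hP

omit [NormedSpace ℝ E] [FiniteDimensional ℝ E] [BorelSpace E] in
theorem T2_comp {α : Type*} [MeasurableSpace α] (P : Set E) (hP : Measurable (T2_ind P))
    (f : α → E) (hf : Measurable f) : Measurable (fun x => T2_ind P (f x)) := hP.comp hf

omit [NormedSpace ℝ E] [FiniteDimensional ℝ E] [BorelSpace E] in
theorem T2_lint (μ : Measure E) (f : E → E) (P : Set E) (hP : MeasurableSet (f ⁻¹' P)) :
    ∫⁻ x, T2_ind P (f x) ∂μ = μ {x | f x ∈ P} := by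
  have : (fun x => T2_ind P (f x)) = (f ⁻¹' P).indicator 1 := by
    ext x
    unfold T2_ind
    by_cases h : f x ∈ P
    · rw [Set.indicator_of_mem h, Set.indicator_of_mem (by exact h)]; rfl
    · rw [Set.indicator_of_notMem h, Set.indicator_of_notMem (by exact h)]
  rw [this, lintegral_indicator_one hP]
  rfl

/-- the second moment bound -/
theorem T2_second (vol : Measure E) [vol.IsAddHaarMeasure] (P : Set E) (hPc : IsCompact P)
    (hP : Convex ℝ P) (μ : Measure E) [IsProbabilityMeasure μ] (q : ℝ≥0∞)
    (hμ : ∀ t, μ {x | x - t ∈ interior P} ≤ q) :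
    ∫⁻ z, μ {x | z - x ∈ P} * μ {x | z - x ∈ P} ∂vol ≤ q * vol P := by
  have hPm : MeasurableSet P := hPc.isClosed.measurableSet
  have hI := T2_ind_meas P hPm
  have hG : ∀ z, μ {x | z - x ∈ P} = ∫⁻ x, T2_ind P (z - x) ∂μ := by
    intro z
    rw [T2_lint μ (fun x => z - x) P (hPm.preimage (by fun_prop))]
  have hGm : Measurable (fun z => μ {x | z - x ∈ P}) := by
    simp_rw [hG]
    exact Measurable.lintegral_prod_right' (f := fun p : E × E => T2_ind P (p.1 - p.2))
      (hI.comp (by fun_prop))
  -- first swap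
  have h1 : ∫⁻ z, μ {x | z - x ∈ P} * μ {x | z - x ∈ P} ∂vol
      = ∫⁻ x', ∫⁻ z, T2_ind P (z - x') * μ {x | z - x ∈ P} ∂vol ∂μ := by
    rw [lintegral_lintegral_swap]
    · refine lintegral_congr fun z => ?_
      rw [lintegral_mul_const _ (T2_comp P hI (fun x' => z - x') (by fun_prop)), ← hG]
    · refine Measurable.aemeasurable ?_
      simp only [Function.uncurry_def]
      exact (hI.comp (by fun_prop)).mul (hGm.comp measurable_snd)
  rw [h1]
  have h2 : ∀ x', ∫⁻ z, T2_ind P (z - x') * μ {x | z - x ∈ P} ∂vol ≤ q * vol P := by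
    intro x'
    have h3 : ∫⁻ z, T2_ind P (z - x') * μ {x | z - x ∈ P} ∂vol
        = ∫⁻ x, ∫⁻ z, T2_ind P (z - x') * T2_ind P (z - x) ∂vol ∂μ := by
      rw [lintegral_lintegral_swap]
      · refine lintegral_congr fun z => ?_
        rw [lintegral_const_mul _ (T2_comp P hI (fun x => z - x) (by fun_prop)), ← hG]
      · refine Measurable.aemeasurable ?_
        simp only [Function.uncurry_def]
        exact (hI.comp (by fun_prop)).mul (hI.comp (by fun_prop))
    have h4 : ∀ x, ∫⁻ z, T2_ind P (z - x') * T2_ind P (z - x) ∂vol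
        = ∫⁻ y, T2_ind P (y + (x - x')) * T2_ind P y ∂vol := by
      intro x
      rw [← lintegral_add_right_eq_self (fun z => T2_ind P (z - x') * T2_ind P (z - x)) x]
      refine lintegral_congr fun y => ?_
      rw [add_sub_cancel_right, add_sub_assoc]
    rw [h3]
    simp_rw [h4]
    rw [lintegral_lintegral_swap]
    · have h5 : ∀ y, ∫⁻ x, T2_ind P (y + (x - x')) * T2_ind P y ∂μ
          = μ {x | y + (x - x') ∈ P} * T2_ind P y := by
        intro y
        rw [lintegral_mul_const _ (T2_comp P hI (fun x => y + (x - x')) (by fun_prop)),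
          T2_lint μ (fun x => y + (x - x')) P (hPm.preimage (by fun_prop))]
      simp_rw [h5]
      -- boundary
      have hfr : ∀ᵐ y ∂vol, μ {x | y + (x - x') ∈ frontier P} = 0 := by
        have hfm : MeasurableSet (frontier P) := isClosed_frontier.measurableSet
        have hJ := T2_ind_meas (frontier P) hfm
        have e1 : ∫⁻ y, μ {x | y + (x - x') ∈ frontier P} ∂vol = 0 := by
          have e2 : ∀ y, μ {x | y + (x - x') ∈ frontier P}
              = ∫⁻ x, T2_ind (frontier P) (y + (x - x')) ∂μ := by
            intro y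
            rw [T2_lint μ (fun x => y + (x - x')) (frontier P) (hfm.preimage (by fun_prop))]
          simp_rw [e2]
          rw [lintegral_lintegral_swap]
          · have e3 : ∀ x, ∫⁻ y, T2_ind (frontier P) (y + (x - x')) ∂vol = 0 := by
              intro x
              rw [lintegral_add_right_eq_self (fun y => T2_ind (frontier P) y) (x - x')]
              have := T2_lint vol (fun y => y) (frontier P) hfm
              rw [this]
              exact hP.addHaar_frontier vol
            simp [e3]
          · refine Measurable.aemeasurable ?_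
            simp only [Function.uncurry_def]
            exact hJ.comp (by fun_prop)
        have hm : Measurable (fun y => μ {x | y + (x - x') ∈ frontier P}) := by
          have e2 : ∀ y, μ {x | y + (x - x') ∈ frontier P}
              = ∫⁻ x, T2_ind (frontier P) (y + (x - x')) ∂μ := by
            intro y
            rw [T2_lint μ (fun x => y + (x - x')) (frontier P) (hfm.preimage (by fun_prop))]
          simp_rw [e2]
          exact Measurable.lintegral_prod_right'
            (f := fun p : E × E => T2_ind (frontier P) (p.1 + (p.2 - x'))) (hJ.comp (by fun_prop))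
        exact (lintegral_eq_zero_iff hm).mp e1
      have hle : ∀ᵐ y ∂vol, μ {x | y + (x - x') ∈ P} * T2_ind P y ≤ q * T2_ind P y := by
        filter_upwards [hfr] with y hy
        refine mul_le_mul_left ?_ _
        calc μ {x | y + (x - x') ∈ P}
            ≤ μ ({x | x - (x' - y) ∈ interior P} ∪ {x | y + (x - x') ∈ frontier P}) := by
              refine measure_mono fun x hx => ?_
              have hx' : y + (x - x') ∈ P := hx
              rcases (closure_eq_interior_union_frontier P ▸ subset_closure hx' :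
                y + (x - x') ∈ interior P ∪ frontier P) with h | h
              · left
                have : x - (x' - y) = y + (x - x') := by abel
                change x - (x' - y) ∈ interior P
                rw [this]; exact h
              · right; exact h
          _ ≤ μ {x | x - (x' - y) ∈ interior P} + μ {x | y + (x - x') ∈ frontier P} :=
              measure_union_le _ _
          _ ≤ q := by rw [hy, add_zero]; exact hμ _
      calc ∫⁻ y, μ {x | y + (x - x') ∈ P} * T2_ind P y ∂vol
          ≤ ∫⁻ y, q * T2_ind P y ∂vol := lintegral_mono_ae hle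
        _ = q * vol P := by
            rw [lintegral_const_mul _ hI]
            have := T2_lint vol (fun y => y) P hPm
            rw [this]
            rfl
    · refine Measurable.aemeasurable ?_
      simp only [Function.uncurry_def]
      exact (hI.comp (by fun_prop)).mul (hI.comp measurable_snd)
  calc ∫⁻ x', ∫⁻ z, T2_ind P (z - x') * μ {x | z - x ∈ P} ∂vol ∂μ
      ≤ ∫⁻ _, q * vol P ∂μ := lintegral_mono h2
    _ = q * vol P := by simp

/-- T2 (second moment): equality in Cauchy-Schwarz. -/
theorem tile_ae (vol : Measure E) [vol.IsAddHaarMeasure] (P : Set E) (hPc : IsCompact P)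
    (hP : Convex ℝ P) (hPi : (interior P).Nonempty) (μ : Measure E) [IsProbabilityMeasure μ]
    (hμP : μ Pᶜ = 0)
    (hμ : ∀ t, μ {x | x - t ∈ interior P} ≤ ENNReal.ofReal (1 / 2 ^ finrank ℝ E)) :
    ∀ᵐ z ∂vol, z ∈ (2 : ℝ) • P → μ {x | z - x ∈ P} = ENNReal.ofReal (1 / 2 ^ finrank ℝ E) := by
  have hPm : MeasurableSet P := hPc.isClosed.measurableSet
  have hI := T2_ind_meas P hPm
  set d := finrank ℝ E with hd
  set q : ℝ := 1 / 2 ^ d with hq
  have hq0 : 0 < q := by positivity
  have hG : ∀ z, μ {x | z - x ∈ P} = ∫⁻ x, T2_ind P (z - x) ∂μ := by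
    intro z
    rw [T2_lint μ (fun x => z - x) P (hPm.preimage (by fun_prop))]
  have hGm : Measurable (fun z => μ {x | z - x ∈ P}) := by
    simp_rw [hG]
    exact Measurable.lintegral_prod_right' (f := fun p : E × E => T2_ind P (p.1 - p.2))
      (hI.comp (by fun_prop))
  have hvolf : vol P ≠ ⊤ := hPc.measure_lt_top.ne
  have h2m : MeasurableSet ((2 : ℝ) • P) := (hPc.smul 2).isClosed.measurableSet
  have h2f : vol ((2 : ℝ) • P) ≠ ⊤ := (hPc.smul 2).measure_lt_top.ne
  have hvol2 : vol.real ((2 : ℝ) • P) = 2 ^ d * vol.real P := by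
    rw [measureReal_def, Measure.addHaar_smul, ENNReal.toReal_mul,
      ENNReal.toReal_ofReal (abs_nonneg _), abs_of_nonneg (by positivity)]
    rfl
  -- total integral
  have hint : ∫⁻ z, μ {x | z - x ∈ P} ∂vol = vol P := by
    simp_rw [hG]
    rw [lintegral_lintegral_swap]
    · have : ∀ x, ∫⁻ z, T2_ind P (z - x) ∂vol = vol P := by
        intro x
        rw [lintegral_sub_right_eq_self (fun z => T2_ind P z) x]
        have := T2_lint vol (fun y => y) P hPm
        rw [this]
        rfl
      simp [this]
    · refine Measurable.aemeasurable ?_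
      simp only [Function.uncurry_def]
      exact hI.comp (by fun_prop)
  -- support
  have hsupp : ∀ z, z ∉ (2 : ℝ) • P → μ {x | z - x ∈ P} = 0 := by
    intro z hz
    refine measure_mono_null (fun x hx => ?_) hμP
    intro hxP
    apply hz
    have h := hP hxP hx (by norm_num : (0:ℝ) ≤ 1/2) (by norm_num : (0:ℝ) ≤ 1/2) (by norm_num)
    refine ⟨_, h, ?_⟩
    simp only
    rw [← smul_add, smul_smul]
    norm_num
  -- real valued
  set g : E → ℝ := fun z => (μ {x | z - x ∈ P}).toReal with hg
  have hgm : Measurable g := hGm.ennreal_toReal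
  have hg0 : ∀ z, 0 ≤ g z := fun z => ENNReal.toReal_nonneg
  have hg1 : ∀ z, g z ≤ 1 := by
    intro z
    have : μ {x | z - x ∈ P} ≤ 1 := prob_le_one
    calc g z ≤ (1 : ℝ≥0∞).toReal := ENNReal.toReal_mono ENNReal.one_ne_top this
      _ = 1 := by simp
  have hGne : ∀ z, μ {x | z - x ∈ P} ≠ ⊤ := fun z => measure_ne_top _ _
  have hset : ∀ f : E → ℝ≥0∞, (∀ z, z ∉ (2 : ℝ) • P → f z = 0) →
      ∫⁻ z in (2 : ℝ) • P, f z ∂vol = ∫⁻ z, f z ∂vol := by
    intro f hf
    rw [← lintegral_indicator h2m]
    refine lintegral_congr fun z => ?_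
    by_cases h : z ∈ (2 : ℝ) • P
    · rw [Set.indicator_of_mem h]
    · rw [Set.indicator_of_notMem h, hf z h]
  have i1 : ∫ z in (2 : ℝ) • P, g z ∂vol = vol.real P := by
    rw [integral_eq_lintegral_of_nonneg_ae (Filter.Eventually.of_forall hg0)
      hgm.aestronglyMeasurable]
    have : ∀ z, ENNReal.ofReal (g z) = μ {x | z - x ∈ P} := fun z => ENNReal.ofReal_toReal (hGne z)
    simp_rw [this]
    rw [hset _ hsupp, hint]
    rfl
  have i2 : ∫ z in (2 : ℝ) • P, g z ^ 2 ∂vol ≤ q * vol.real P := by
    rw [integral_eq_lintegral_of_nonneg_ae (Filter.Eventually.of_forall fun z => sq_nonneg _)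
      (hgm.pow_const 2).aestronglyMeasurable]
    have : ∀ z, ENNReal.ofReal (g z ^ 2) = μ {x | z - x ∈ P} * μ {x | z - x ∈ P} := by
      intro z
      rw [sq, ENNReal.ofReal_mul (hg0 z), hg]
      simp only
      rw [ENNReal.ofReal_toReal (hGne z)]
    simp_rw [this]
    rw [hset _ (fun z hz => by rw [hsupp z hz, zero_mul])]
    have h := T2_second vol P hPc hP μ (ENNReal.ofReal q) hμ
    calc (∫⁻ z, μ {x | z - x ∈ P} * μ {x | z - x ∈ P} ∂vol).toReal
        ≤ (ENNReal.ofReal q * vol P).toReal :=
          ENNReal.toReal_mono (ENNReal.mul_ne_top ENNReal.ofReal_ne_top hvolf) h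
      _ = q * vol.real P := by
          rw [ENNReal.toReal_mul, ENNReal.toReal_ofReal hq0.le]
          rfl
  have hgi : IntegrableOn g ((2 : ℝ) • P) vol := by
    refine Measure.integrableOn_of_bounded (M := 1) h2f hgm.aestronglyMeasurable ?_
    refine Filter.Eventually.of_forall fun z => ?_
    rw [Real.norm_of_nonneg (hg0 z)]; exact hg1 z
  have hgi2 : IntegrableOn (fun z => g z ^ 2) ((2 : ℝ) • P) vol := by
    refine Measure.integrableOn_of_bounded (M := 1) h2f (hgm.pow_const 2).aestronglyMeasurable ?_
    refine Filter.Eventually.of_forall fun z => ?_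
    rw [Real.norm_of_nonneg (sq_nonneg _)]
    exact pow_le_one₀ (hg0 z) (hg1 z)
  have i3 : ∫ z in (2 : ℝ) • P, (g z - q) ^ 2 ∂vol ≤ 0 := by
    have e : ∀ z, (g z - q) ^ 2 = g z ^ 2 - (2 * q) * g z + q ^ 2 := fun z => by ring
    have e5 : ∫ z in (2 : ℝ) • P, (g z - q) ^ 2 ∂vol
        = ∫ z in (2 : ℝ) • P, g z ^ 2 ∂vol - 2 * q * ∫ z in (2 : ℝ) • P, g z ∂vol
          + vol.real ((2 : ℝ) • P) * q ^ 2 := by
      have e6 : (fun z => (g z - q) ^ 2) = fun z => (g z ^ 2 - (2 * q) * g z) + q ^ 2 := by
        ext z; ring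
      rw [e6]
      have e7 : IntegrableOn (fun z => g z ^ 2 - (2 * q) * g z) ((2 : ℝ) • P) vol :=
        hgi2.sub (hgi.const_mul _)
      rw [integral_add e7 (integrableOn_const h2f), integral_sub hgi2 (hgi.const_mul _),
        integral_const_mul, setIntegral_const, smul_eq_mul]
    rw [e5, i1, hvol2]
    have hqq : q ^ 2 * 2 ^ d = q := by
      rw [hq]; field_simp
    have : 2 ^ d * vol.real P * q ^ 2 = q * vol.real P := by
      calc 2 ^ d * vol.real P * q ^ 2 = (q ^ 2 * 2 ^ d) * vol.real P := by ring
        _ = q * vol.real P := by rw [hqq]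
    rw [this]
    linarith
  have hi3 : IntegrableOn (fun z => (g z - q) ^ 2) ((2 : ℝ) • P) vol := by
    have e : (fun z => (g z - q) ^ 2) = fun z => g z ^ 2 - (2 * q) * g z + q ^ 2 := by
      ext z; ring
    rw [e]
    exact (hgi2.sub (hgi.const_mul _)).add (integrableOn_const h2f)
  have i4 : ∫ z in (2 : ℝ) • P, (g z - q) ^ 2 ∂vol = 0 :=
    le_antisymm i3 (integral_nonneg fun z => sq_nonneg _)
  have h5 := (integral_eq_zero_iff_of_nonneg (fun z => sq_nonneg (g z - q)) hi3).mp i4
  have h6 := (ae_restrict_iff' h2m).mp h5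
  filter_upwards [h6] with z hz hz2
  have h7 := hz hz2
  simp only [Pi.zero_apply] at h7
  have h8 : g z = q := by nlinarith [sq_nonneg (g z - q)]
  rw [← ENNReal.ofReal_toReal (hGne z)]
  exact congrArg ENNReal.ofReal h8

end T2

end Pool.Agent.H2R2.Frac
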