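import Mathlib

set_option autoImplicit false

/-!
# Fractional covering of convex bodies, task T3: extreme points carry the measure (helper285)
-/

namespace Pool.Agent.H2R2.Frac

open MeasureTheory Module
open scoped Pointwise ENNReal Topology

section Gen

variable {E : Type*} [NormedAddCommGroup E] [NormedSpace ℝ E] [FiniteDimensional ℝ E]
  [MeasurableSpace E] [BorelSpace E]

/-- near an extreme point `e` of `P`, if `z` is close to `2e` then `P ∩ (z - P)` is close to `e`. -/
private lemma T3_delta (P : Set E) (hPc : IsCompact P) (e : E) (he : e ∈ P.extremePoints ℝ)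
    (ε : ℝ) (hε : 0 < ε) :
    ∃ δ : ℝ, 0 < δ ∧ ∀ z ∈ Metric.ball ((2 : ℝ) • e) δ, ∀ x ∈ P, z - x ∈ P → dist x e ≤ ε := by
  set K : Set (E × E) := (P ×ˢ P) ∩ {q | ε ≤ dist q.1 e} with hK
  have hKc : IsCompact K := (hPc.prod hPc).inter_right
    (isClosed_le continuous_const (continuous_fst.dist continuous_const))
  have hf : Continuous (fun q : E × E => dist (q.1 + q.2) ((2 : ℝ) • e)) :=
    (continuous_fst.add continuous_snd).dist continuous_const
  have hpos : ∀ q ∈ K, 0 < dist (q.1 + q.2) ((2 : ℝ) • e) := by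
    rintro ⟨x, y⟩ ⟨⟨hx, hy⟩, hd⟩
    rw [dist_pos]
    intro h
    have hseg : e ∈ openSegment ℝ x y := by
      refine ⟨1 / 2, 1 / 2, by norm_num, by norm_num, by norm_num, ?_⟩
      simp only at h
      rw [← smul_add, h, smul_smul]; norm_num
    have := (mem_extremePoints.1 he).2 x hx y hy hseg
    simp only [Set.mem_setOf_eq] at hd
    rw [this.1, dist_self] at hd
    linarith
  rcases K.eq_empty_or_nonempty with hKe | hKne
  · refine ⟨1, one_pos, fun z _ x hx hzx => ?_⟩
    by_contra hlt
    have : (x, z - x) ∈ K := ⟨⟨hx, hzx⟩, (not_le.1 hlt).le⟩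
    rw [hKe] at this
    exact this
  · obtain ⟨q, hq, hmin⟩ := hKc.exists_isMinOn hKne hf.continuousOn
    refine ⟨_, hpos q hq, fun z hz x hx hzx => ?_⟩
    by_contra hlt
    have h1 : (x, z - x) ∈ K := ⟨⟨hx, hzx⟩, (not_le.1 hlt).le⟩
    have h2 := hmin h1
    simp only [Set.mem_setOf_eq, add_sub_cancel] at h2
    rw [Metric.mem_ball] at hz
    linarith

private lemma T3_atom (vol : Measure E) [vol.IsAddHaarMeasure] (P : Set E) (hPc : IsCompact P)
    (hP : Convex ℝ P) (hPi : (interior P).Nonempty) (μ : Measure E) [IsProbabilityMeasure μ]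
    (hμP : μ Pᶜ = 0) (m : ℝ≥0∞)
    (htile : ∀ᵐ z ∂vol, z ∈ (2 : ℝ) • P → μ {x | z - x ∈ P} = m)
    (e : E) (he : e ∈ P.extremePoints ℝ) : m ≤ μ {e} := by
  have heP : e ∈ P := (mem_extremePoints.1 he).1
  -- every closed ball around `e` has mass at least `m`
  have hball : ∀ ε : ℝ, 0 < ε → m ≤ μ (Metric.closedBall e ε) := by
    intro ε hε
    obtain ⟨δ, hδ, hδP⟩ := T3_delta P hPc e he ε hε
    have hP2 : Convex ℝ ((2 : ℝ) • P) := hP.smul 2
    have hP2i : interior ((2 : ℝ) • P) = (2 : ℝ) • interior P :=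
      (interior_smul₀ (by norm_num : (2 : ℝ) ≠ 0) P)
    have hP2ne : (interior ((2 : ℝ) • P)).Nonempty := by
      rw [hP2i]; exact hPi.smul_set
    have h2e : (2 : ℝ) • e ∈ closure (interior ((2 : ℝ) • P)) := by
      rw [hP2.closure_interior_eq_closure_of_nonempty_interior hP2ne]
      exact subset_closure (Set.smul_mem_smul_set heP)
    obtain ⟨z₀, hz₀b, hz₀i⟩ := mem_closure_iff.1 h2e (Metric.ball ((2 : ℝ) • e) δ)
      Metric.isOpen_ball (Metric.mem_ball_self hδ)
    have hdense := Measure.dense_of_ae htile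
    obtain ⟨z, hz, hzt⟩ := hdense.inter_open_nonempty
      (Metric.ball ((2 : ℝ) • e) δ ∩ interior ((2 : ℝ) • P))
      (Metric.isOpen_ball.inter isOpen_interior) ⟨z₀, hz₀b, hz₀i⟩
    have hmz : μ {x | z - x ∈ P} = m := hzt (interior_subset hz.2)
    rw [← hmz]
    have hsub : {x | z - x ∈ P} ⊆ Metric.closedBall e ε ∪ Pᶜ := by
      intro x hx
      by_cases hxP : x ∈ P
      · exact Or.inl (Metric.mem_closedBall.2 (hδP z hz.1 x hxP hx))
      · exact Or.inr hxP
    calc μ {x | z - x ∈ P} ≤ μ (Metric.closedBall e ε ∪ Pᶜ) := measure_mono hsub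
      _ ≤ μ (Metric.closedBall e ε) + μ Pᶜ := measure_union_le _ _
      _ = μ (Metric.closedBall e ε) := by rw [hμP, add_zero]
  have hinter : (⋂ n : ℕ, Metric.closedBall e (1 / ((n : ℝ) + 1))) = {e} := by
    ext x
    simp only [Set.mem_iInter, Metric.mem_closedBall, Set.mem_singleton_iff]
    constructor
    · intro h
      have h0 : dist x e ≤ 0 := by
        refine ge_of_tendsto' tendsto_one_div_add_atTop_nhds_zero_nat fun n => h n
      exact dist_le_zero.1 h0
    · rintro rfl n
      rw [dist_self]; positivity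
  have hanti : Antitone (fun n : ℕ => Metric.closedBall e (1 / ((n : ℝ) + 1))) := by
    intro i j hij
    refine Metric.closedBall_subset_closedBall ?_
    exact one_div_le_one_div_of_le (by positivity) (by exact_mod_cast Nat.succ_le_succ hij)
  have hlim := tendsto_measure_iInter_atTop (μ := μ)
    (fun n : ℕ => (Metric.isClosed_closedBall (x := e) (ε := 1 / ((n : ℝ) + 1))).measurableSet.nullMeasurableSet)
    hanti ⟨0, measure_ne_top μ _⟩
  rw [hinter] at hlim
  exact ge_of_tendsto' hlim fun n => hball _ (by positivity)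

/-- T3 (extreme points carry the measure). -/
theorem exists_vertices (vol : Measure E) [vol.IsAddHaarMeasure] (P : Set E) (hPc : IsCompact P)
    (hP : Convex ℝ P) (hPi : (interior P).Nonempty) (μ : Measure E) [IsProbabilityMeasure μ]
    (hμP : μ Pᶜ = 0)
    (hμ : ∀ t, μ {x | x - t ∈ interior P} ≤ ENNReal.ofReal (1 / 2 ^ finrank ℝ E))
    (htile : ∀ᵐ z ∂vol, z ∈ (2 : ℝ) • P →
      μ {x | z - x ∈ P} = ENNReal.ofReal (1 / 2 ^ finrank ℝ E)) :
    ∃ V : Finset E, V.card = 2 ^ finrank ℝ E ∧ P = convexHull ℝ (V : Set E) ∧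
      ∀ᵐ z ∂vol, z ∈ (2 : ℝ) • P → ∃! v, v ∈ V ∧ z - v ∈ P := by
  classical
  set N : ℕ := 2 ^ finrank ℝ E with hN
  have hNpos : 0 < N := by positivity
  set m : ℝ≥0∞ := ENNReal.ofReal (1 / 2 ^ finrank ℝ E) with hm
  have hmN : m = (N : ℝ≥0∞)⁻¹ := by
    rw [hm, one_div, ENNReal.ofReal_inv_of_pos (by positivity)]
    congr 1
    rw [hN]
    push_cast
    rw [ENNReal.ofReal_pow (by norm_num)]
    norm_num
  have hm0 : m ≠ 0 := by rw [hmN]; simp
  have hmtop : m ≠ ⊤ := ENNReal.ofReal_ne_top
  have hN0 : (N : ℝ≥0∞) ≠ 0 := by exact_mod_cast hNpos.ne'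
  have hNt : (N : ℝ≥0∞) ≠ ⊤ := ENNReal.natCast_ne_top N
  have hNm : (N : ℝ≥0∞) * m = 1 := by rw [hmN]; exact ENNReal.mul_inv_cancel hN0 hNt
  have hatom := T3_atom vol P hPc hP hPi μ hμP m htile
  -- finitely many extreme points
  have hcard : ∀ F : Finset E, (F : Set E) ⊆ P.extremePoints ℝ → F.card ≤ N := by
    intro F hF
    have h1 : (F.card : ℝ≥0∞) * m ≤ 1 := by
      calc (F.card : ℝ≥0∞) * m = ∑ v ∈ F, m := by rw [Finset.sum_const, nsmul_eq_mul]
        _ ≤ ∑ v ∈ F, μ {v} := Finset.sum_le_sum fun v hv => hatom v (hF hv)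
        _ = μ (F : Set E) := sum_measure_singleton
        _ ≤ 1 := prob_le_one
    rw [← hNm] at h1
    have h2 : (F.card : ℝ≥0∞) ≤ N := (ENNReal.mul_le_mul_iff_left hm0 hmtop).1 h1
    exact_mod_cast h2
  have hfin : (P.extremePoints ℝ).Finite := by
    by_contra hinf
    obtain ⟨F, hF, hFc⟩ := Set.Infinite.exists_subset_card_eq hinf (N + 1)
    have := hcard F hF
    omega
  set V : Finset E := hfin.toFinset with hV
  have hVc : (V : Set E) = P.extremePoints ℝ := hfin.coe_toFinset
  have hVP : ∀ v ∈ V, v ∈ P := fun v hv => by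
    have : v ∈ P.extremePoints ℝ := by rw [← hVc]; exact hv
    exact (mem_extremePoints.1 this).1
  have hPV : P = convexHull ℝ (V : Set E) := by
    have h1 := closure_convexHull_extremePoints hPc hP
    rw [← hVc, (V.finite_toSet.isClosed_convexHull ℝ).closure_eq] at h1
    exact h1.symm
  obtain ⟨p, hp⟩ := hPi
  -- null neighbourhoods
  have hVnull : μ (V : Set E)ᶜ = 0 := by
    refine measure_null_of_locally_null _ fun x hxV => ?_
    by_cases hxP : x ∈ P
    · have hx := hxP
      rw [hPV] at hx
      replace hx := Finset.mem_convexHull'.1 hx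
      obtain ⟨l, hl0, hl1, hlx⟩ := hx
      -- some weight is positive
      have hex : ∃ e ∈ V, 0 < l e := by
        by_contra hne
        push Not at hne
        have : ∑ y ∈ V, l y ≤ 0 := Finset.sum_nonpos hne
        rw [hl1] at this
        linarith
      obtain ⟨e, heV, hle⟩ := hex
      have hxe : x ≠ e := by
        rintro rfl
        exact hxV heV
      have hle1 : l e ≤ 1 := by
        rw [← hl1]; exact Finset.single_le_sum (f := l) (fun y hy => hl0 y hy) heV
      have hle1' : l e < 1 := by
        refine lt_of_le_of_ne hle1 fun h1 => hxe ?_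
        have h2 : ∑ y ∈ V.erase e, l y = 0 := by
          have := Finset.add_sum_erase V l heV
          linarith
        have h3 : ∀ y ∈ V.erase e, l y = 0 := by
          intro y hy
          exact (Finset.sum_eq_zero_iff_of_nonneg
            (fun y hy => hl0 y (Finset.mem_of_mem_erase hy))).1 h2 y hy
        have h4 := Finset.add_sum_erase V (fun y => l y • y) heV
        rw [Finset.sum_eq_zero (fun y hy => by rw [h3 y hy, zero_smul]), h1, one_smul,
          add_zero] at h4
        rw [← hlx, ← h4]
      -- the remaining part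
      have hw : ∃ w ∈ P, x = l e • e + (1 - l e) • w := by
        refine ⟨(1 - l e)⁻¹ • ∑ y ∈ V.erase e, l y • y, ?_, ?_⟩
        · rw [Finset.smul_sum]
          have : ∀ y ∈ V.erase e, (1 - l e)⁻¹ • l y • y = ((1 - l e)⁻¹ * l y) • y :=
            fun y _ => smul_smul _ _ _
          rw [Finset.sum_congr rfl this]
          refine hP.sum_mem (fun y hy => ?_) ?_ (fun y hy => hVP y (Finset.mem_of_mem_erase hy))
          · exact mul_nonneg (inv_nonneg.2 (by linarith)) (hl0 y (Finset.mem_of_mem_erase hy))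
          · rw [← Finset.mul_sum]
            have h2 : ∑ y ∈ V.erase e, l y = 1 - l e := by
              have := Finset.add_sum_erase V l heV
              linarith
            rw [h2, inv_mul_cancel₀ (by linarith)]
        · rw [smul_smul, mul_inv_cancel₀ (by linarith), one_smul]
          rw [← hlx]
          exact (Finset.add_sum_erase V (fun y => l y • y) heV).symm
      obtain ⟨w, hwP, hxw⟩ := hw
      set a : E := l e • p + (1 - l e) • w with ha
      set b : E := l e • p + (1 - l e) • e with hb
      have haI : a ∈ interior P :=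
        hP.combo_interior_self_mem_interior hp hwP hle (by linarith) (by ring)
      have hbI : b ∈ interior P :=
        hP.combo_interior_self_mem_interior hp (hVP e heV) hle (by linarith) (by ring)
      have hxt : x - (e - b) = a := by
        rw [hxw, ha, hb]; module
      set A : Set E := {y | y - (e - b) ∈ interior P} with hA
      have hAo : IsOpen A := isOpen_interior.preimage (continuous_id.sub continuous_const)
      have heA : e ∈ A := by
        simp only [hA, Set.mem_setOf_eq, sub_sub_cancel]; exact hbI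
      have hxA : x ∈ A := by
        simp only [hA, Set.mem_setOf_eq, hxt]; exact haI
      have hAm : μ (A \ {e}) = 0 := by
        have h1 : μ A ≤ m := hμ (e - b)
        have h2 : μ {e} + μ (A \ {e}) = μ A := by
          have := measure_inter_add_diff (μ := μ) A (measurableSet_singleton e)
          rwa [Set.inter_eq_self_of_subset_right (Set.singleton_subset_iff.2 heA)] at this
        have h3 : m ≤ μ {e} := hatom e (by rw [← hVc]; exact heV)
        have h4 : m + μ (A \ {e}) ≤ m + 0 := by
          rw [add_zero]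
          calc m + μ (A \ {e}) ≤ μ {e} + μ (A \ {e}) := by gcongr
            _ = μ A := h2
            _ ≤ m := h1
        exact le_antisymm (by simpa using (ENNReal.add_le_add_iff_left hmtop).1 h4) (by simp)
      refine ⟨A \ {e}, mem_nhdsWithin_of_mem_nhds ?_, hAm⟩
      exact (hAo.sdiff isClosed_singleton).mem_nhds ⟨hxA, by simpa using hxe⟩
    · exact ⟨Pᶜ, mem_nhdsWithin_of_mem_nhds (hPc.isClosed.isOpen_compl.mem_nhds hxP), hμP⟩
  have hVm : ∀ v ∈ V, μ {v} = m := by
    intro v hv
    refine le_antisymm ?_ (hatom v (by rw [← hVc]; exact hv))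
    refine (measure_mono ?_).trans (hμ (v - p))
    intro y hy
    rw [Set.mem_singleton_iff] at hy
    simp only [hy, Set.mem_setOf_eq, sub_sub_cancel]
    exact hp
  have hmeas : ∀ A : Set E, μ A = ((V.filter (fun v => v ∈ A)).card : ℝ≥0∞) * m := by
    intro A
    have h1 : μ A = μ (A ∩ V) := by
      refine le_antisymm ?_ (measure_mono Set.inter_subset_left)
      calc μ A ≤ μ ((A ∩ V) ∪ (V : Set E)ᶜ) := by
            refine measure_mono fun x hx => ?_
            by_cases hxV : x ∈ (V : Set E)
            · exact Or.inl ⟨hx, hxV⟩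
            · exact Or.inr hxV
        _ ≤ μ (A ∩ V) + μ (V : Set E)ᶜ := measure_union_le _ _
        _ = μ (A ∩ V) := by rw [hVnull, add_zero]
    have h2 : A ∩ V = ((V.filter (fun v => v ∈ A) : Finset E) : Set E) := by
      ext x; simp [and_comm]
    rw [h1, h2, ← sum_measure_singleton,
      Finset.sum_congr rfl (fun v hv => hVm v (Finset.mem_of_mem_filter v hv)),
      Finset.sum_const, nsmul_eq_mul]
  refine ⟨V, ?_, hPV, ?_⟩
  · have h1 := hmeas Set.univ
    rw [measure_univ] at h1
    simp only [Set.mem_univ, Finset.filter_true] at h1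
    rw [← hNm] at h1
    have h2 : (N : ℝ≥0∞) = V.card := (ENNReal.mul_left_inj hm0 hmtop).1 h1
    exact_mod_cast h2.symm
  · filter_upwards [htile] with z hz hz2
    have h1 := hz hz2
    rw [hmeas] at h1
    have h2 : ((V.filter (fun v => v ∈ {x | z - x ∈ P})).card : ℝ≥0∞) = 1 := by
      refine (ENNReal.mul_left_inj hm0 hmtop).1 ?_
      rw [h1, one_mul]
    have h3 : (V.filter (fun v => v ∈ {x | z - x ∈ P})).card = 1 := by exact_mod_cast h2
    rw [Finset.card_eq_one] at h3
    obtain ⟨v, hv⟩ := h3
    have hv1 : v ∈ V.filter (fun v => v ∈ {x | z - x ∈ P}) := by rw [hv]; simp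
    rw [Finset.mem_filter] at hv1
    refine ⟨v, hv1, fun y hy => ?_⟩
    have : y ∈ V.filter (fun v => v ∈ {x | z - x ∈ P}) := Finset.mem_filter.2 hy
    rw [hv] at this
    simpa using this

end Gen

end Pool.Agent.H2R2.Frac
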