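import Mathlib

set_option autoImplicit false

/-!
# Fractional covering of convex bodies: volumes of slices (task T4ab, helper831)
-/

namespace Pool.Agent.H2R2.Frac

open MeasureTheory Module
open scoped Pointwise ENNReal

section T4ab

variable {E : Type*} [NormedAddCommGroup E] [NormedSpace ℝ E] [FiniteDimensional ℝ E]
  [MeasurableSpace E] [BorelSpace E]

private lemma T4ab_meas (P : Set E) (hPc : IsCompact P) (φ : E →ₗ[ℝ] ℝ) (a : ℝ) :
    MeasurableSet {x | x ∈ P ∧ φ x < a} :=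
  hPc.measurableSet.inter
    ((isOpen_Iio.preimage (φ.continuous_of_finiteDimensional)).measurableSet)

private lemma T4ab_fin (vol : Measure E) [vol.IsAddHaarMeasure] (P : Set E) (hPc : IsCompact P)
    (φ : E →ₗ[ℝ] ℝ) (a : ℝ) : vol {x | x ∈ P ∧ φ x < a} ≠ ∞ :=
  ne_top_of_le_ne_top hPc.measure_lt_top.ne (measure_mono fun _ hx => hx.1)

/-- T4a: the functional equation for volumes of slices. -/
theorem slice_eq (vol : Measure E) [vol.IsAddHaarMeasure] (P : Set E) (hPc : IsCompact P)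
    (hP : Convex ℝ P) (V : Finset E) (hV : ∀ v ∈ V, v ∈ P)
    (htile : ∀ᵐ z ∂vol, z ∈ (2 : ℝ) • P → ∃! v, v ∈ V ∧ z - v ∈ P)
    (φ : E →ₗ[ℝ] ℝ) (c s : ℝ) :
    2 ^ finrank ℝ E * vol.real {x | x ∈ P ∧ φ x < c + s / 2} =
      ∑ v ∈ V, vol.real {x | x ∈ P ∧ φ x < c + (s - (φ v - c))} := by
  classical
  set B : Set E := {z | z ∈ (2 : ℝ) • P ∧ φ z < 2 * c + s} with hB
  set A : E → Set E := fun v => {z | z - v ∈ P ∧ φ z < 2 * c + s} with hA
  have hBs : B = (2 : ℝ) • {x | x ∈ P ∧ φ x < c + s / 2} := by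
    ext z
    rw [hB, Set.mem_setOf_eq, Set.mem_smul_set, Set.mem_smul_set]
    constructor
    · rintro ⟨⟨x, hx, rfl⟩, h⟩
      refine ⟨x, ⟨hx, ?_⟩, rfl⟩
      rw [map_smul, smul_eq_mul] at h
      linarith
    · rintro ⟨x, ⟨hx, h⟩, rfl⟩
      refine ⟨⟨x, hx, rfl⟩, ?_⟩
      rw [map_smul, smul_eq_mul]
      linarith
  have h1 : vol B = ENNReal.ofReal (2 ^ finrank ℝ E) * vol {x | x ∈ P ∧ φ x < c + s / 2} := by
    rw [hBs, Measure.addHaar_smul, abs_of_pos (by positivity)]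
  have hsub : ∀ v ∈ V, A v ⊆ B := by
    rintro v hv z ⟨hz, hz'⟩
    refine ⟨?_, hz'⟩
    rw [Set.mem_smul_set]
    refine ⟨(1 / 2 : ℝ) • (z - v) + (1 / 2 : ℝ) • v,
      hP hz (hV v hv) (by norm_num) (by norm_num) (by norm_num), ?_⟩
    module
  have hnull : vol {z | ¬ (z ∈ (2 : ℝ) • P → ∃! v, v ∈ V ∧ z - v ∈ P)} = 0 := htile
  have hdisj : Set.Pairwise (↑V : Set E) (Function.onFun (AEDisjoint vol) A) := by
    intro v hv w hw hvw
    refine measure_mono_null ?_ hnull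
    rintro z ⟨hz1, hz2⟩
    simp only [Set.mem_setOf_eq]
    intro hcon
    obtain ⟨u, _, hu⟩ := hcon (hsub v hv hz1).1
    exact hvw ((hu v ⟨hv, hz1.1⟩).trans (hu w ⟨hw, hz2.1⟩).symm)
  have hAtr : ∀ v, A v = (fun z => z + (-v)) ⁻¹' {x | x ∈ P ∧ φ x < c + (s - (φ v - c))} := by
    intro v
    ext z
    simp only [hA, Set.mem_setOf_eq, Set.mem_preimage, ← sub_eq_add_neg, map_sub]
    refine and_congr Iff.rfl ?_
    constructor <;> intro h <;> linarith
  have hAvol : ∀ v, vol (A v) = vol {x | x ∈ P ∧ φ x < c + (s - (φ v - c))} := by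
    intro v
    rw [hAtr, measure_preimage_add_right]
  have hAmeas : ∀ v, MeasurableSet (A v) := by
    intro v
    rw [hAtr]
    exact (measurable_add_const _) (T4ab_meas P hPc φ _)
  have hU : vol B = vol (⋃ v ∈ V, A v) := by
    apply le_antisymm
    · calc vol B ≤ vol ((⋃ v ∈ V, A v) ∪
            {z | ¬ (z ∈ (2 : ℝ) • P → ∃! v, v ∈ V ∧ z - v ∈ P)}) := by
            refine measure_mono fun z hz => ?_
            by_cases h : z ∈ (2 : ℝ) • P → ∃! v, v ∈ V ∧ z - v ∈ P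
            · left
              obtain ⟨v, ⟨hv, hzv⟩, _⟩ := h hz.1
              exact Set.mem_biUnion (Finset.mem_coe.2 hv) ⟨hzv, hz.2⟩
            · right
              exact h
        _ ≤ vol (⋃ v ∈ V, A v) + vol {z | ¬ (z ∈ (2 : ℝ) • P → ∃! v, v ∈ V ∧ z - v ∈ P)} :=
            measure_union_le _ _
        _ = vol (⋃ v ∈ V, A v) := by rw [hnull, add_zero]
    · exact measure_mono (Set.iUnion₂_subset hsub)
  rw [measure_biUnion_finset₀ hdisj fun v _ => (hAmeas v).nullMeasurableSet, h1] at hU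
  have h2 := congrArg ENNReal.toReal hU
  rw [ENNReal.toReal_mul, ENNReal.toReal_ofReal (by positivity), ENNReal.toReal_sum] at h2
  · simp only [hAvol] at h2
    exact h2
  · intro v _
    rw [hAvol]
    exact T4ab_fin vol P hPc φ _

/-- T4b: homothety with centre in a top point. -/
theorem slice_homothety (hd : 1 ≤ finrank ℝ E) (vol : Measure E) [vol.IsAddHaarMeasure]
    (P : Set E) (hPc : IsCompact P)
    (hP : Convex ℝ P) (φ : E →ₗ[ℝ] ℝ) (c h : ℝ) (z : E) (hz : z ∈ P) (hzh : φ z = c + h)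
    (τ r r' : ℝ) (hτ : 0 ≤ τ) (hτ' : τ ≤ 1) (hr : r ≤ r') :
    (1 - τ) ^ finrank ℝ E *
        (vol.real {x | x ∈ P ∧ φ x < c + r'} - vol.real {x | x ∈ P ∧ φ x < c + r}) ≤
      vol.real {x | x ∈ P ∧ φ x < c + (τ * h + (1 - τ) * r')} -
        vol.real {x | x ∈ P ∧ φ x < c + (τ * h + (1 - τ) * r)} := by
  rcases hτ'.eq_or_lt with rfl | hlt
  · rw [sub_self, zero_pow (by omega)]
    simp
  have hpos : 0 < 1 - τ := by linarith
  have hlayer : ∀ a b : ℝ, a ≤ b →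
      vol.real {x | x ∈ P ∧ φ x < b} - vol.real {x | x ∈ P ∧ φ x < a} =
        vol.real {x | x ∈ P ∧ a ≤ φ x ∧ φ x < b} := by
    intro a b hab
    have e : {x | x ∈ P ∧ a ≤ φ x ∧ φ x < b} =
        {x | x ∈ P ∧ φ x < b} \ {x | x ∈ P ∧ φ x < a} := by
      ext x
      simp only [Set.mem_setOf_eq, Set.mem_diff, not_and, not_lt]
      constructor
      · rintro ⟨h1, h2, h3⟩
        exact ⟨⟨h1, h3⟩, fun _ => h2⟩
      · rintro ⟨⟨h1, h2⟩, h3⟩
        exact ⟨h1, h3 h1, h2⟩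
    have hsub : {x | x ∈ P ∧ φ x < a} ⊆ {x | x ∈ P ∧ φ x < b} :=
      fun x hx => ⟨hx.1, hx.2.trans_le hab⟩
    rw [e, measureReal_sdiff hsub (T4ab_meas P hPc φ a) (T4ab_fin vol P hPc φ b)]
  have hmul : (1 - τ) * r ≤ (1 - τ) * r' := mul_le_mul_of_nonneg_left hr hpos.le
  rw [hlayer _ _ (by linarith), hlayer _ _ (by linarith)]
  have himg : AffineMap.homothety z (1 - τ) '' {x | x ∈ P ∧ c + r ≤ φ x ∧ φ x < c + r'} ⊆
      {x | x ∈ P ∧ c + (τ * h + (1 - τ) * r) ≤ φ x ∧ φ x < c + (τ * h + (1 - τ) * r')} := by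
    rintro _ ⟨x, ⟨hx, h1, h2⟩, rfl⟩
    have e : AffineMap.homothety z (1 - τ) x = (1 - τ) • x + τ • z := by
      rw [AffineMap.homothety_apply, vsub_eq_sub, vadd_eq_add]
      module
    rw [e]
    have hφ : φ ((1 - τ) • x + τ • z) = (1 - τ) * φ x + τ * (c + h) := by
      rw [map_add, map_smul, map_smul, smul_eq_mul, smul_eq_mul, hzh]
    refine ⟨hP hx hz hpos.le hτ (by ring), ?_, ?_⟩
    · rw [hφ]
      nlinarith
    · rw [hφ]
      nlinarith
  have hfin : vol {x | x ∈ P ∧ c + (τ * h + (1 - τ) * r) ≤ φ x ∧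
      φ x < c + (τ * h + (1 - τ) * r')} ≠ ∞ :=
    ne_top_of_le_ne_top hPc.measure_lt_top.ne (measure_mono fun _ hx => hx.1)
  have hvol := Measure.addHaar_image_homothety vol z (1 - τ)
    {x | x ∈ P ∧ c + r ≤ φ x ∧ φ x < c + r'}
  calc (1 - τ) ^ finrank ℝ E * vol.real {x | x ∈ P ∧ c + r ≤ φ x ∧ φ x < c + r'} =
      vol.real (AffineMap.homothety z (1 - τ) '' {x | x ∈ P ∧ c + r ≤ φ x ∧ φ x < c + r'}) := by
        rw [measureReal_def, measureReal_def, hvol, ENNReal.toReal_mul,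
          abs_of_pos (by positivity), ENNReal.toReal_ofReal (by positivity)]
    _ ≤ _ := measureReal_mono himg hfin

end T4ab

end Pool.Agent.H2R2.Frac
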