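import Mathlib

set_option autoImplicit false

/-!
# Task T4c: the real-variable lemma
-/

namespace Pool.Agent.H2R2.Frac

open Finset

private lemma T4c_small {A B : ℝ} (hA : 0 < A) (hAB : ∀ ε : ℝ, 0 < ε → ε < A → B ≤ ε) :
    B ≤ 0 := by
  by_contra hB
  push Not at hB
  have h1 := hAB (min (A / 2) (B / 2)) (by positivity)
    (lt_of_le_of_lt (min_le_left _ _) (by linarith))
  have h2 := min_le_right (A / 2) (B / 2)
  linarith

private lemma T4c_bern (d : ℕ) {τ : ℝ} (_h0 : 0 ≤ τ) (h1 : τ ≤ 1) :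
    1 - d * τ ≤ (1 - τ) ^ d := by
  have := one_add_mul_le_pow (a := -τ) (by linarith) d
  calc 1 - d * τ = 1 + d * (-τ) := by ring
    _ ≤ (1 + -τ) ^ d := this
    _ = (1 - τ) ^ d := by ring_nf

/-- T4c: the real-variable lemma. -/
theorem two_values {ι : Type*} (V : Finset ι) (d : ℕ) (hd : 1 ≤ d) (hV : V.card = 2 ^ d)
    (a : ι → ℝ) (ha : ∀ v ∈ V, 0 ≤ a v) (h : ℝ) (hh : 0 < h) (hah : ∀ v ∈ V, a v ≤ h)
    (G : ℝ → ℝ) (hmono : Monotone G) (h0 : ∀ s, s ≤ 0 → G s = 0)
    (hom : ∀ τ r r' : ℝ, 0 ≤ τ → τ ≤ 1 → r ≤ r' →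
      (1 - τ) ^ d * (G r' - G r) ≤ G (τ * h + (1 - τ) * r') - G (τ * h + (1 - τ) * r))
    (heq : ∀ s, 0 < s → 2 ^ d * G (s / 2) = ∑ v ∈ V, G (s - a v))
    (c₀ s₀ : ℝ) (hc₀ : 0 < c₀) (hs₀ : 0 < s₀) (hlow : ∀ s, 0 < s → s < s₀ → c₀ * s ≤ G s) :
    ∀ v ∈ V, a v = 0 ∨ a v = h := by
  classical
  have hGnn : ∀ s, 0 ≤ G s := by
    intro s
    rcases le_or_gt s 0 with hs | hs
    · exact (h0 s hs).ge
    · calc 0 = G 0 := (h0 0 le_rfl).symm
        _ ≤ G s := hmono hs.le
  have hGpos : ∀ s, 0 < s → 0 < G s := by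
    intro s hs
    rcases lt_or_ge s s₀ with h1 | h1
    · exact lt_of_lt_of_le (by positivity) (hlow s hs h1)
    · have h2 := hlow (s₀ / 2) (by positivity) (by linarith)
      have h3 := hmono (show s₀ / 2 ≤ s by linarith)
      have : 0 < c₀ * (s₀ / 2) := by positivity
      linarith
  intro v₁ hv₁
  by_contra hcon
  push Not at hcon
  obtain ⟨hv₁0, hv₁h⟩ := hcon
  -- minimal positive value
  have hne : (V.filter (fun v => a v ≠ 0)).Nonempty := ⟨v₁, by simp [hv₁, hv₁0]⟩
  obtain ⟨v₀, hv₀, hmin⟩ := Finset.exists_min_image (V.filter (fun v => a v ≠ 0)) a hne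
  obtain ⟨hv₀V, hv₀0⟩ := Finset.mem_filter.1 hv₀
  obtain ⟨A, hA⟩ : ∃ A, A = a v₀ := ⟨_, rfl⟩
  rw [← hA] at hv₀0 hmin
  have hApos : 0 < A := by rw [hA]; exact lt_of_le_of_ne (ha v₀ hv₀V) (by rw [← hA]; exact Ne.symm hv₀0)
  have hAh : A < h := by
    have h1 : A ≤ a v₁ := hmin v₁ (by simp [hv₁, hv₁0])
    have h2 : a v₁ < h := lt_of_le_of_ne (hah v₁ hv₁) hv₁h
    linarith
  have hminA : ∀ v ∈ V, a v ≠ 0 → A ≤ a v := fun v hv h1 => hmin v (by simp [hv, h1])
  obtain ⟨N, hN⟩ : ∃ N : ℝ, N = ((V.filter (fun v => a v = 0)).card : ℝ) := ⟨_, rfl⟩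
  have hN0 : 0 ≤ N := by rw [hN]; positivity
  have h2d : (0 : ℝ) < 2 ^ d := by positivity
  -- functional equation on (0,A]
  have hF1 : ∀ s, 0 < s → s ≤ A → 2 ^ d * G (s / 2) = N * G s := by
    intro s hs hsA
    rw [heq s hs, ← Finset.sum_filter_add_sum_filter_not V (fun v => a v = 0)]
    have h1 : ∑ v ∈ V.filter (fun v => a v = 0), G (s - a v) = N * G s := by
      rw [Finset.sum_congr rfl (g := fun _ => G s)]
      · simp [hN]
      · intro v hv
        rw [(Finset.mem_filter.1 hv).2, sub_zero]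
    have h2 : ∑ v ∈ V.filter (fun v => ¬ a v = 0), G (s - a v) = 0 := by
      refine Finset.sum_eq_zero fun v hv => ?_
      obtain ⟨hvV, hv0⟩ := Finset.mem_filter.1 hv
      exact h0 _ (by have := hminA v hvV hv0; linarith)
    rw [h1, h2, add_zero]
  obtain ⟨ρ, hρ⟩ : ∃ ρ : ℝ, ρ = N / 2 ^ d := ⟨_, rfl⟩
  have hNρ : N = ρ * 2 ^ d := by rw [hρ]; field_simp
  have hF1' : ∀ s, 0 < s → s ≤ A → G (s / 2) = ρ * G s := by
    intro s hs hsA
    have h1 := hF1 s hs hsA
    rw [hNρ] at h1
    have h3 : 2 ^ d * G (s / 2) = 2 ^ d * (ρ * G s) := by linarith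
    exact mul_left_cancel₀ h2d.ne' h3
  have hρ0 : 0 ≤ ρ := by rw [hρ]; positivity
  -- rho <= 1/2
  have hρle : 2 * ρ ≤ 1 := by
    have key : ∀ s, 0 < s → s ≤ A → 2 * ρ - 1 ≤ ρ * (d * (s / (2 * h))) := by
      intro s hs hsA
      have hτ0 : 0 ≤ s / (2 * h) := by positivity
      have hτ1 : s / (2 * h) ≤ 1 := by
        rw [div_le_one (by positivity)]; linarith
      have h1 := hom (s / (2 * h)) 0 (s / 2) hτ0 hτ1 (by positivity)
      have h2 : s / (2 * h) * h = s / 2 := by field_simp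
      rw [h2, h0 0 le_rfl, mul_zero, add_zero, sub_zero] at h1
      have h3 : G (s / 2 + (1 - s / (2 * h)) * (s / 2)) ≤ G s := by
        apply hmono
        nlinarith
      rw [hF1' s hs hsA] at h1
      have h4 := T4c_bern d hτ0 hτ1
      have h5 : (1 - d * (s / (2 * h))) * (ρ * G s) ≤ (1 - s / (2 * h)) ^ d * (ρ * G s) :=
        mul_le_mul_of_nonneg_right h4 (mul_nonneg hρ0 (hGnn s))
      have h6 : (2 * ρ - 1) * G s ≤ (ρ * (d * (s / (2 * h)))) * G s := by nlinarith
      exact le_of_mul_le_mul_right h6 (hGpos s hs)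
    by_contra hc
    push Not at hc
    have hpos : 0 < 2 * ρ - 1 := by linarith
    -- choose s small
    obtain ⟨C, hC⟩ : ∃ C : ℝ, C = ρ * (d / (2 * h)) := ⟨_, rfl⟩
    have hCnn : 0 ≤ C := by rw [hC]; positivity
    obtain ⟨s, hs⟩ : ∃ s : ℝ, s = min A ((2 * ρ - 1) / (2 * (C + 1))) := ⟨_, rfl⟩
    have hspos : 0 < s := by rw [hs]; exact lt_min hApos (by positivity)
    have h1 := key s hspos (hs.le.trans (min_le_left _ _))
    have h2 : ρ * (d * (s / (2 * h))) = C * s := by rw [hC]; ring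
    rw [h2] at h1
    have h3 : s ≤ (2 * ρ - 1) / (2 * (C + 1)) := hs.le.trans (min_le_right _ _)
    rw [le_div_iff₀ (by positivity)] at h3
    nlinarith
  -- scaling
  have hscale : ∀ (k : ℕ) (s : ℝ), 0 < s → s ≤ A → G (s / 2 ^ k) = ρ ^ k * G s := by
    intro k
    induction k with
    | zero => intro s _ _; simp
    | succ k ih =>
      intro s hs hsA
      have h1 : s / 2 ^ (k + 1) = (s / 2 ^ k) / 2 := by rw [pow_succ]; field_simp
      have h2 : s / 2 ^ k ≤ A := by
        refine le_trans (div_le_self hs.le ?_) hsA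
        exact one_le_pow₀ (by norm_num)
      rw [h1, hF1' _ (by positivity) h2, ih s hs hsA, pow_succ]
      ring
  have hρeq : ρ = 1 / 2 := by
    by_contra hc
    have hlt : 2 * ρ < 1 := by
      rcases lt_or_eq_of_le hρle with h1 | h1
      · exact h1
      · exact absurd (by linarith) hc
    have hGA := hGpos A hApos
    have ht : 0 < c₀ * A / G A := by positivity
    obtain ⟨n, hn⟩ := exists_pow_lt_of_lt_one ht hlt
    obtain ⟨m, hm⟩ := pow_unbounded_of_one_lt (A / s₀) (one_lt_two)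
    have h1 : (2 * ρ) ^ (n + m) < c₀ * A / G A := by
      refine lt_of_le_of_lt ?_ hn
      exact pow_le_pow_of_le_one (by positivity) hlt.le (Nat.le_add_right _ _)
    have h2 : A / 2 ^ (n + m) < s₀ := by
      rw [div_lt_iff₀ (by positivity)]
      rw [div_lt_iff₀ hs₀] at hm
      have h3 : (2 : ℝ) ^ m ≤ 2 ^ (n + m) := pow_le_pow_right₀ (by norm_num) (Nat.le_add_left _ _)
      nlinarith
    have h3 := hlow (A / 2 ^ (n + m)) (by positivity) h2
    rw [hscale _ A hApos le_rfl] at h3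
    rw [lt_div_iff₀ hGA] at h1
    have h4 : c₀ * (A / 2 ^ (n + m)) * 2 ^ (n + m) ≤ ρ ^ (n + m) * G A * 2 ^ (n + m) :=
      mul_le_mul_of_nonneg_right h3 (by positivity)
    have h5 : c₀ * (A / 2 ^ (n + m)) * 2 ^ (n + m) = c₀ * A := by field_simp
    have h6 : ρ ^ (n + m) * G A * 2 ^ (n + m) = (2 * ρ) ^ (n + m) * G A := by
      rw [mul_pow]; ring
    linarith
  have hscale' : ∀ (k : ℕ) (s : ℝ), 0 < s → s ≤ A → 2 ^ k * G (s / 2 ^ k) = G s := by
    intro k s hs hsA
    rw [hscale k s hs hsA, hρeq]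
    rw [← mul_assoc, ← mul_pow]
    norm_num
  -- superadditivity
  have hsuper : ∀ u s, 0 < u → 0 < s → u + s ≤ A → G u + G s ≤ G (u + s) := by
    intro u s hu hs hus
    have key : ∀ k : ℕ, G u + G s - G (u + s) ≤ (d * (u / h) * G s) / 2 ^ k := by
      intro k
      have h2k : (0 : ℝ) < 2 ^ k := by positivity
      have h2k1 : (1 : ℝ) ≤ 2 ^ k := one_le_pow₀ (by norm_num)
      have hτ0 : 0 ≤ u / 2 ^ k / h := by positivity
      have hτ1 : u / 2 ^ k / h ≤ 1 := by
        rw [div_le_one hh]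
        have : u / 2 ^ k ≤ u := div_le_self hu.le h2k1
        linarith
      have h1 := hom (u / 2 ^ k / h) 0 (s / 2 ^ k) hτ0 hτ1 (by positivity)
      have h2 : u / 2 ^ k / h * h = u / 2 ^ k := by field_simp
      rw [h2, h0 0 le_rfl, mul_zero, add_zero, sub_zero] at h1
      have h3 : G (u / 2 ^ k + (1 - u / 2 ^ k / h) * (s / 2 ^ k)) ≤ G ((u + s) / 2 ^ k) := by
        apply hmono
        rw [add_div]
        have : 0 ≤ u / 2 ^ k / h * (s / 2 ^ k) := by positivity
        nlinarith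
      have h4 := T4c_bern d hτ0 hτ1
      have h5 : (1 - d * (u / 2 ^ k / h)) * G (s / 2 ^ k) ≤
          (1 - u / 2 ^ k / h) ^ d * G (s / 2 ^ k) :=
        mul_le_mul_of_nonneg_right h4 (hGnn _)
      have h6 : (1 - d * (u / 2 ^ k / h)) * G (s / 2 ^ k) ≤
          G ((u + s) / 2 ^ k) - G (u / 2 ^ k) := by linarith
      have h7 := mul_le_mul_of_nonneg_left h6 h2k.le
      rw [mul_sub, hscale' k (u + s) (by positivity) hus, hscale' k u hu (by linarith)] at h7
      have h8 : 2 ^ k * ((1 - d * (u / 2 ^ k / h)) * G (s / 2 ^ k)) =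
          (1 - d * (u / 2 ^ k / h)) * G s := by
        rw [← hscale' k s hs (by linarith)]; ring
      rw [h8] at h7
      have h9 : (d * (u / h) * G s) / 2 ^ k = d * (u / 2 ^ k / h) * G s := by
        field_simp
      rw [h9]
      linarith
    have hlim : Filter.Tendsto (fun k : ℕ => (d * (u / h) * G s) / 2 ^ k) Filter.atTop
        (nhds 0) := by
      have h1 : Filter.Tendsto (fun k : ℕ => (d * (u / h) * G s) * ((1 / 2 : ℝ) ^ k))
          Filter.atTop (nhds ((d * (u / h) * G s) * 0)) :=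
        (tendsto_pow_atTop_nhds_zero_of_lt_one (by norm_num) (by norm_num)).const_mul _
      rw [mul_zero] at h1
      refine h1.congr fun k => ?_
      rw [one_div, inv_pow]; rfl
    have := ge_of_tendsto' hlim key
    linarith
  -- multiples
  have hmult : ∀ (m : ℕ) (x : ℝ), 0 < x → m * x ≤ A → m * G x ≤ G (m * x) := by
    intro m
    induction m with
    | zero => intro x _ _; simp [h0 0 le_rfl]
    | succ m ih =>
      intro x hx hmx
      rcases Nat.eq_zero_or_pos m with rfl | hm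
      · simp
      · push_cast at hmx ⊢
        have h1 := ih x hx (by nlinarith)
        have h2 := hsuper (m * x) x (by positivity) hx (by linarith)
        have h3 : ((m : ℝ) + 1) * x = m * x + x := by ring
        rw [h3]
        linarith
  have hslope : ∀ s t, 0 < s → s ≤ A → 0 < t → t ≤ A → t * G s ≤ s * G t := by
    intro s t hs hsA ht htA
    have key : ∀ k : ℕ, t * G s - s * G t ≤ (s * G s) / 2 ^ k := by
      intro k
      have h2k : (0 : ℝ) < 2 ^ k := by positivity
      obtain ⟨x, hx⟩ : ∃ x : ℝ, x = s / 2 ^ k := ⟨_, rfl⟩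
      have hxpos : 0 < x := by rw [hx]; positivity
      obtain ⟨m, hm⟩ : ∃ m : ℕ, m = ⌊t / x⌋₊ := ⟨_, rfl⟩
      have hm1 : (m : ℝ) * x ≤ t := by
        have := Nat.floor_le (show 0 ≤ t / x by positivity)
        rwa [← hm, le_div_iff₀ hxpos] at this
      have hm2 : t < (m + 1) * x := by
        have := Nat.lt_floor_add_one (t / x)
        rwa [← hm, div_lt_iff₀ hxpos] at this
      have h1 := hmult m x hxpos (by linarith)
      have h2 := hmono hm1
      have h3 : 2 ^ k * G x = G s := by rw [hx]; exact hscale' k s hs hsA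
      have h4 : 2 ^ k * x = s := by rw [hx]; field_simp
      have h5 : (s * G s) / 2 ^ k = s * G x := by rw [← h3]; field_simp
      rw [h5]
      -- t * G s = t * 2^k * G x ; s * G t >= s * m * G x
      have hGx := hGnn x
      have h6 : t * G s ≤ (m + 1) * x * G s :=
        mul_le_mul_of_nonneg_right hm2.le (hGnn s)
      have h7 : (m + 1) * x * G s = (m + 1) * s * G x := by
        rw [← h3, ← h4]; ring
      have h8 : s * (m * G x) ≤ s * G t := mul_le_mul_of_nonneg_left (h1.trans h2) hs.le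
      nlinarith
    have hlim : Filter.Tendsto (fun k : ℕ => (s * G s) / 2 ^ k) Filter.atTop
        (nhds 0) := by
      have h1 : Filter.Tendsto (fun k : ℕ => (s * G s) * ((1 / 2 : ℝ) ^ k))
          Filter.atTop (nhds ((s * G s) * 0)) :=
        (tendsto_pow_atTop_nhds_zero_of_lt_one (by norm_num) (by norm_num)).const_mul _
      rw [mul_zero] at h1
      refine h1.congr fun k => ?_
      rw [one_div, inv_pow]; rfl
    have := ge_of_tendsto' hlim key
    linarith
  obtain ⟨f, hf⟩ : ∃ f : ℝ, f = G A / A := ⟨_, rfl⟩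
  have hfpos : 0 < f := by rw [hf]; exact div_pos (hGpos A hApos) hApos
  have hlin : ∀ s, 0 < s → s ≤ A → G s = f * s := by
    intro s hs hsA
    have h1 := hslope s A hs hsA hApos le_rfl
    have h2 := hslope A s hApos le_rfl hs hsA
    have h3 : A * G s = s * G A := le_antisymm h1 h2
    rw [hf]
    field_simp
    linarith
  -- N
  have hNval : N = 2 ^ d / 2 := by rw [hNρ, hρeq]; ring
  have hNpos : 0 < N := by rw [hNval]; positivity
  have hcorner : ∀ s, A < s → s < 2 * A → G s ≤ f * s - (f / N) * (s - A) := by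
    intro s hs1 hs2
    have h1 := heq s (by linarith)
    rw [hlin (s / 2) (by linarith) (by linarith)] at h1
    have h2 : N * G s + G (s - A) ≤ ∑ v ∈ V, G (s - a v) := by
      rw [← Finset.sum_filter_add_sum_filter_not V (fun v => a v = 0)]
      have h3 : ∑ v ∈ V.filter (fun v => a v = 0), G (s - a v) = N * G s := by
        rw [Finset.sum_congr rfl (g := fun _ => G s)]
        · simp [hN]
        · intro v hv
          rw [(Finset.mem_filter.1 hv).2, sub_zero]
      have h4 : G (s - A) ≤ ∑ v ∈ V.filter (fun v => ¬ a v = 0), G (s - a v) := by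
        rw [hA]
        exact
        Finset.single_le_sum (f := fun v => G (s - a v)) (fun v _ => hGnn _)
          (Finset.mem_filter.2 ⟨hv₀V, by rw [← hA]; exact hv₀0⟩)
      rw [h3]
      linarith
    rw [← h1, hlin (s - A) (by linarith) (by linarith)] at h2
    have h5 : 2 ^ d * (f * (s / 2)) = N * (f * s) := by rw [hNval]; ring
    rw [h5] at h2
    have h6 : N * G s ≤ N * (f * s - (f / N) * (s - A)) := by
      have : N * (f * s - (f / N) * (s - A)) = N * (f * s) - f * (s - A) := by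
        field_simp
      rw [this]; linarith
    exact le_of_mul_le_mul_left h6 hNpos
  -- final contradiction
  have hfinal : ∀ τ : ℝ, 0 < τ → τ < min (1 / 2) (min (A / h) (A / (h - A))) →
      f / N ≤ d * τ * f := by
    intro τ hτ hτ'
    have hτ1 : τ < 1 / 2 := lt_of_lt_of_le hτ' (min_le_left _ _)
    have hτ2 : τ < A / h := lt_of_lt_of_le hτ' ((min_le_right _ _).trans (min_le_left _ _))
    have hτ3 : τ < A / (h - A) :=
      lt_of_lt_of_le hτ' ((min_le_right _ _).trans (min_le_right _ _))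
    have hhA : 0 < h - A := by linarith
    rw [lt_div_iff₀ hh] at hτ2
    rw [lt_div_iff₀ hhA] at hτ3
    have h1τ : 0 < 1 - τ := by linarith
    obtain ⟨r, hr⟩ : ∃ r : ℝ, r = (A - τ * h) / (1 - τ) := ⟨_, rfl⟩
    have hrpos : 0 < r := by rw [hr]; exact div_pos (by linarith) h1τ
    have hrA : r ≤ A := by
      rw [hr, div_le_iff₀ h1τ]; nlinarith
    have h1 := hom τ r A hτ.le (by linarith) hrA
    have h2 : τ * h + (1 - τ) * r = A := by
      rw [hr, mul_div_cancel₀ _ h1τ.ne']; ring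
    have h3 : τ * h + (1 - τ) * A = A + τ * (h - A) := by ring
    rw [h2, h3, hlin r hrpos hrA] at h1
    have h4 : A < A + τ * (h - A) := by nlinarith
    have h5 := hcorner (A + τ * (h - A)) h4 (by linarith)
    rw [hlin A hApos le_rfl] at h1
    have h6 : f * A - f * r = f * (A - r) := by ring
    have h7 : A - r = τ * (h - A) / (1 - τ) := by
      rw [hr]; field_simp; ring
    have h8 : τ * (h - A) ≤ A - r := by
      rw [h7, le_div_iff₀ h1τ]
      have : 0 < τ * (h - A) := by positivity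
      nlinarith
    have h9 : (1 - d * τ) * (f * (τ * (h - A))) ≤ (1 - τ) ^ d * (f * (A - r)) := by
      calc (1 - d * τ) * (f * (τ * (h - A))) ≤ (1 - τ) ^ d * (f * (τ * (h - A))) :=
            mul_le_mul_of_nonneg_right (T4c_bern d hτ.le (by linarith)) (by positivity)
        _ ≤ (1 - τ) ^ d * (f * (A - r)) := by
            apply mul_le_mul_of_nonneg_left _ (by positivity)
            exact mul_le_mul_of_nonneg_left h8 hfpos.le
    rw [h6] at h1
    have h10 : (1 - d * τ) * (f * (τ * (h - A))) ≤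
        f * (τ * (h - A)) - (f / N) * (τ * (h - A)) := by
      have : A + τ * (h - A) - A = τ * (h - A) := by ring
      rw [this] at h5
      linarith
    have h11 : (f / N) * (τ * (h - A)) ≤ (d * τ * f) * (τ * (h - A)) := by nlinarith
    exact le_of_mul_le_mul_right h11 (by positivity)
  have hmpos : 0 < min (1 / 2) (min (A / h) (A / (h - A))) := by
    refine lt_min (by norm_num) (lt_min (by positivity) (div_pos hApos (by linarith)))
  have hκ : 0 < f / N := by positivity
  have hdf : 0 < (d : ℝ) * f := by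
    have : (0 : ℝ) < d := by exact_mod_cast hd
    positivity
  obtain ⟨M, hM⟩ : ∃ M : ℝ, M = min (1 / 2) (min (A / h) (A / (h - A))) := ⟨_, rfl⟩
  rw [← hM] at hfinal hmpos
  obtain ⟨τ, hτdef⟩ : ∃ τ : ℝ, τ = min (M / 2) (f / N / (2 * (d * f))) := ⟨_, rfl⟩
  have hτpos : 0 < τ := by rw [hτdef]; exact lt_min (by positivity) (by positivity)
  have hτlt : τ < M := by
    rw [hτdef]
    exact lt_of_le_of_lt (min_le_left _ _) (by linarith)
  have h1 := hfinal τ hτpos hτlt
  have h2 : τ ≤ f / N / (2 * (d * f)) := by rw [hτdef]; exact min_le_right _ _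
  rw [le_div_iff₀ (by positivity)] at h2
  nlinarith

end Pool.Agent.H2R2.Frac
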