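import Mathlib

set_option autoImplicit false

/-!
# A polytope has facets transversal to every direction
-/

namespace Pool.Agent.H2R2.Frac

open MeasureTheory Module
open scoped Pointwise ENNReal

section Gen

variable {E : Type*} [NormedAddCommGroup E] [NormedSpace ℝ E] [FiniteDimensional ℝ E]

/-- The last point of a ray in a compact convex set, with a supporting functional. -/
theorem T5_ray (P : Set E) (hPc : IsCompact P) (hP : Convex ℝ P) (q w : E)
    (hq : q ∈ interior P) (hw : w ≠ 0) :
    ∃ (s : ℝ) (ψ : E →L[ℝ] ℝ), q + s • w ∈ P ∧ (∀ y ∈ P, ψ y ≤ ψ (q + s • w)) ∧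
      ψ q < ψ (q + s • w) ∧ 0 < ψ w := by
  classical
  set S : Set ℝ := {s | 0 ≤ s ∧ q + s • w ∈ P} with hS
  have h0 : (0 : ℝ) ∈ S := ⟨le_rfl, by simpa using interior_subset hq⟩
  have hclosed : IsClosed S := by
    apply IsClosed.inter isClosed_Ici
    exact hPc.isClosed.preimage (by fun_prop)
  have hbdd : BddAbove S := by
    obtain ⟨R, hR⟩ := hPc.isBounded.exists_norm_le
    have hwn : 0 < ‖w‖ := norm_pos_iff.mpr hw
    refine ⟨(R + ‖q‖) / ‖w‖, ?_⟩
    rintro s ⟨hs0, hs⟩
    have h1 := hR _ hs
    rw [le_div_iff₀ hwn]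
    have h2 : ‖s • w‖ ≤ ‖q + s • w‖ + ‖q‖ := by
      have : s • w = (q + s • w) - q := by abel
      calc ‖s • w‖ = ‖(q + s • w) - q‖ := by rw [← this]
        _ ≤ _ := norm_sub_le _ _
    rw [norm_smul, Real.norm_eq_abs, abs_of_nonneg hs0] at h2
    linarith
  have hmem : sSup S ∈ S := hclosed.csSup_mem ⟨0, h0⟩ hbdd
  set s := sSup S with hs
  have hb : q + s • w ∉ interior P := by
    intro hint
    -- extend a bit
    have hcont : Filter.Tendsto (fun t : ℝ => q + (s + t) • w) (nhds 0) (nhds (q + s • w)) := by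
      have : Continuous (fun t : ℝ => q + (s + t) • w) := by fun_prop
      simpa using this.tendsto 0
    have hev : ∀ᶠ t : ℝ in nhds 0, q + (s + t) • w ∈ P := by
      have := hcont (isOpen_interior.mem_nhds hint)
      filter_upwards [this] with t ht using interior_subset ht
    obtain ⟨ε, hε, hball⟩ := Metric.eventually_nhds_iff.mp hev
    have h1 : q + (s + ε / 2) • w ∈ P := by
      apply hball
      rw [Real.dist_eq, sub_zero, abs_of_pos (by linarith)]
      linarith
    have h2 : s + ε / 2 ∈ S := ⟨by have := hmem.1; linarith, h1⟩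
    have h3 := le_csSup hbdd h2
    rw [← hs] at h3
    linarith
  obtain ⟨f, hf⟩ := geometric_hahn_banach_open_point hP.interior isOpen_interior hb
  refine ⟨s, f, hmem.2, ?_, hf q hq, ?_⟩
  · intro y hy
    have hcl : y ∈ closure (interior P) := by
      rw [hP.closure_interior_eq_closure_of_nonempty_interior ⟨q, hq⟩]
      exact subset_closure hy
    have hsub : closure (interior P) ⊆ {y | f y ≤ f (q + s • w)} := by
      apply closure_minimal
      · intro a ha
        exact (hf a ha).le
      · exact isClosed_le (by fun_prop) continuous_const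
    exact hsub hcl
  · have h1 := hf q hq
    rw [map_add, map_smul, smul_eq_mul] at h1
    have h2 : 0 < s * f w := by linarith
    exact (pos_iff_pos_of_mul_pos h2).mp (by
      rcases hmem.1.lt_or_eq with h | h
      · exact h
      · rw [← h] at h2; simp at h2)

/-- A point of a polytope where a functional is maximal lies in the hull of the maximisers. -/
theorem T5_face (V : Finset E) (ψ : E →ₗ[ℝ] ℝ) (m : ℝ) (hV : ∀ v ∈ V, ψ v ≤ m) (b : E)
    (hb : b ∈ convexHull ℝ (V : Set E)) (hbm : ψ b = m) :
    b ∈ convexHull ℝ ({v | v ∈ V ∧ ψ v = m} : Set E) := by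
  classical
  rw [Finset.mem_convexHull'] at hb
  obtain ⟨w, hw0, hw1, hwb⟩ := hb
  have h1 : ∑ v ∈ V, w v * (m - ψ v) = 0 := by
    have h2 : ψ b = ∑ v ∈ V, w v * ψ v := by
      rw [← hwb, map_sum]
      exact Finset.sum_congr rfl fun v _ => by simp
    calc ∑ v ∈ V, w v * (m - ψ v) = (∑ v ∈ V, w v) * m - ∑ v ∈ V, w v * ψ v := by
          rw [Finset.sum_mul, ← Finset.sum_sub_distrib]
          exact Finset.sum_congr rfl fun v _ => by ring
      _ = 0 := by rw [hw1, ← h2, hbm]; ring
  have h2 : ∀ v ∈ V, w v * (m - ψ v) = 0 :=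
    (Finset.sum_eq_zero_iff_of_nonneg fun v hv =>
      mul_nonneg (hw0 v hv) (sub_nonneg.mpr (hV v hv))).mp h1
  have h3 : ∀ v ∈ V, ¬ (ψ v = m) → w v = 0 := by
    intro v hv hne
    rcases mul_eq_zero.mp (h2 v hv) with h | h
    · exact h
    · exact absurd (by linarith) hne
  have hset : ({v | v ∈ V ∧ ψ v = m} : Set E) = ((V.filter fun v => ψ v = m : Finset E) : Set E) := by
    ext v; simp
  rw [hset, Finset.mem_convexHull']
  refine ⟨w, fun v hv => hw0 v (Finset.mem_filter.mp hv).1, ?_, ?_⟩
  · rw [← hw1]
    apply Finset.sum_subset (Finset.filter_subset _ _)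
    intro v hv hnv
    exact h3 v hv fun h => hnv (Finset.mem_filter.mpr ⟨hv, h⟩)
  · rw [← hwb]
    apply Finset.sum_subset (Finset.filter_subset _ _)
    intro v hv hnv
    rw [h3 v hv fun h => hnv (Finset.mem_filter.mpr ⟨hv, h⟩), zero_smul]

variable [MeasurableSpace E] [BorelSpace E]

/-- There is a facet functional transversal to `w`. -/
theorem T5_transversal (vol : Measure E) [vol.IsAddHaarMeasure] (V : Finset E)
    (hPi : (interior (convexHull ℝ (V : Set E))).Nonempty) (w : E) (hw : w ≠ 0) :
    ∃ (q b : E) (ψ : E →L[ℝ] ℝ), q ∈ interior (convexHull ℝ (V : Set E)) ∧ 0 < ψ w ∧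
      (∀ y ∈ convexHull ℝ (V : Set E), ψ y ≤ ψ b) ∧ ψ q < ψ b ∧
      b ∈ convexHull ℝ ({v | v ∈ V ∧ ψ v = ψ b} : Set E) ∧
      vectorSpan ℝ ({v | v ∈ V ∧ ψ v = ψ b} : Set E) ⊔ Submodule.span ℝ {w} = ⊤ := by
  classical
  set P := convexHull ℝ (V : Set E) with hPdef
  have hPc : IsCompact P := Set.Finite.isCompact_convexHull (𝕜 := ℝ) V.finite_toSet
  have hP : Convex ℝ P := convex_convexHull ℝ _
  by_contra hcon
  push Not at hcon
  -- the finitely many affine subspaces
  set S : Finset E × E → AffineSubspace ℝ E := fun p =>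
    AffineSubspace.mk' p.2 (vectorSpan ℝ (p.1 : Set E) ⊔ Submodule.span ℝ {w}) with hS
  have hcover : interior P ⊆ ⋃ p ∈ ((V.powerset ×ˢ V).filter fun p => S p ≠ ⊤), (S p : Set E) := by
    intro q hq
    obtain ⟨s, ψ, hmem, hmax, hlt, hpos⟩ := T5_ray P hPc hP q w hq hw
    set b := q + s • w with hb
    have hface := T5_face V ψ.toLinearMap (ψ b) (fun v hv => hmax v (subset_convexHull ℝ _ hv)) b
      hmem rfl
    have hne := hcon q b ψ hq hpos hmax hlt (by simpa using hface)
    set A : Finset E := V.filter fun v => ψ v = ψ b with hA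
    have hAset : ({v | v ∈ V ∧ ψ v = ψ b} : Set E) = (A : Set E) := by
      ext v; simp [hA]
    rw [hAset] at hne
    have hbA : b ∈ convexHull ℝ (A : Set E) := by
      rw [← hAset]; simpa using hface
    obtain ⟨a, ha⟩ : (A : Set E).Nonempty := by
      rw [← convexHull_nonempty_iff (𝕜 := ℝ)]
      exact ⟨b, hbA⟩
    have haV : a ∈ V := (Finset.mem_filter.mp ha).1
    refine Set.mem_biUnion (x := (A, a)) ?_ ?_
    · simp only [Finset.coe_filter, Set.mem_ofPred_eq, Finset.mem_product, Finset.mem_powerset]
      refine ⟨⟨Finset.filter_subset _ _, haV⟩, ?_⟩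
      intro htop
      apply hne
      have : (S (A, a)).direction = ⊤ := by rw [htop]; exact AffineSubspace.direction_top ℝ E E
      simpa [hS, AffineSubspace.direction_mk'] using this
    · show q ∈ AffineSubspace.mk' a _
      rw [AffineSubspace.mem_mk']
      have h1 : b -ᵥ a ∈ vectorSpan ℝ (A : Set E) := by
        rw [← direction_affineSpan]
        exact AffineSubspace.vsub_mem_direction (convexHull_subset_affineSpan _ hbA)
          (subset_affineSpan ℝ _ ha)
      have h2 : q -ᵥ a = (b -ᵥ a) + (-s) • w := by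
        simp only [vsub_eq_sub, hb]
        rw [neg_smul]
        abel
      rw [h2]
      exact Submodule.add_mem_sup h1 (Submodule.smul_mem _ _ (Submodule.mem_span_singleton_self w))
  have hzero : vol (interior P) = 0 := by
    refine measure_mono_null hcover ?_
    have h := (measure_biUnion_null_iff (μ := vol) (s := fun p => (S p : Set E))
      (Finset.countable_toSet ((V.powerset ×ˢ V).filter fun p => S p ≠ ⊤))).2 (by
        intro p hp
        have hp' : S p ≠ ⊤ := (Finset.mem_filter.mp (Finset.mem_coe.mp hp)).2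
        exact Measure.addHaar_affineSubspace vol _ hp')
    exact h
  exact absurd hzero (isOpen_interior.measure_pos vol hPi).ne'

/-- T5: a polytope has facets transversal to every direction. -/
theorem exists_facet (vol : Measure E) [vol.IsAddHaarMeasure] (V : Finset E)
    (hPi : (interior (convexHull ℝ (V : Set E))).Nonempty) (w : E) (hw : w ≠ 0) :
    ∃ (φ : E →ₗ[ℝ] ℝ) (c : ℝ), φ w ≠ 0 ∧ (∀ x ∈ convexHull ℝ (V : Set E), c ≤ φ x) ∧
      ∃ c₀ s₀ : ℝ, 0 < c₀ ∧ 0 < s₀ ∧ ∀ s, 0 < s → s < s₀ →
        c₀ * s ≤ vol.real {x | x ∈ convexHull ℝ (V : Set E) ∧ φ x < c + s} := by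
  classical
  obtain ⟨q, b, ψ, hq, hψw, hmax, hlt, hbA, htop⟩ := T5_transversal vol V hPi w hw
  set P := convexHull ℝ (V : Set E) with hPdef
  have hPc : IsCompact P := Set.Finite.isCompact_convexHull (𝕜 := ℝ) V.finite_toSet
  have hP : Convex ℝ P := convex_convexHull ℝ _
  set A : Set E := {v | v ∈ V ∧ ψ v = ψ b} with hA
  set m := ψ b with hm
  set η := m - ψ q with hη
  have hηpos : 0 < η := by linarith
  have hAfin : A.Finite := V.finite_toSet.subset fun v hv => hv.1
  have hAne : A.Nonempty := by
    rw [← convexHull_nonempty_iff (𝕜 := ℝ)]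
    exact ⟨b, hbA⟩
  set C : Set E := convexHull ℝ (insert q A) with hC
  have hCcomp : IsCompact C := Set.Finite.isCompact_convexHull (𝕜 := ℝ) (hAfin.insert q)
  have hCP : C ⊆ P := by
    apply convexHull_min _ hP
    rintro x (rfl | hx)
    · exact interior_subset hq
    · exact subset_convexHull ℝ _ hx.1
  have hψA : ∀ y ∈ convexHull ℝ A, ψ y = m := by
    intro y hy
    have hsub : convexHull ℝ A ⊆ {y | ψ y = m} := by
      apply convexHull_min
      · intro v hv; exact hv.2
      · exact convex_hyperplane ψ.toLinearMap.isLinear m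
    exact hsub hy
  -- the interior of C is nonempty
  have hCint : (interior C).Nonempty := by
    rw [hC, interior_convexHull_nonempty_iff_affineSpan_eq_top]
    obtain ⟨a, ha⟩ := hAne
    have hqmem : q ∈ affineSpan ℝ (insert q A) := subset_affineSpan ℝ _ (Set.mem_insert _ _)
    have hdir : (affineSpan ℝ (insert q A)).direction = ⊤ := by
      rw [direction_affineSpan, eq_top_iff]
      have hle1 : vectorSpan ℝ A ≤ vectorSpan ℝ (insert q A) :=
        vectorSpan_mono ℝ (Set.subset_insert _ _)
      have hqa : q -ᵥ a ∈ vectorSpan ℝ (insert q A) :=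
        vsub_mem_vectorSpan ℝ (Set.mem_insert _ _) (Set.mem_insert_of_mem _ ha)
      have hψv : ∀ y ∈ vectorSpan ℝ A, ψ y = 0 := by
        intro y hy
        have hle : vectorSpan ℝ A ≤ LinearMap.ker ψ.toLinearMap := by
          rw [vectorSpan_def, Submodule.span_le]
          rintro x ⟨u, hu, v, hv, rfl⟩
          simp only [SetLike.mem_coe, LinearMap.mem_ker, ContinuousLinearMap.coe_coe, vsub_eq_sub,
            map_sub]
          rw [hu.2, hv.2, sub_self]
        exact hle hy
      have hwmem : w ∈ vectorSpan ℝ (insert q A) := by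
        have h1 : q -ᵥ a ∈ vectorSpan ℝ A ⊔ Submodule.span ℝ {w} := by rw [htop]; trivial
        obtain ⟨y, hy, z, hz, hyz⟩ := Submodule.mem_sup.mp h1
        obtain ⟨r, rfl⟩ := Submodule.mem_span_singleton.mp hz
        have h2 : ψ (q -ᵥ a) = r * ψ w := by
          rw [← hyz, map_add, hψv y hy, map_smul, smul_eq_mul, zero_add]
        have h3 : ψ (q -ᵥ a) < 0 := by
          rw [vsub_eq_sub, map_sub, ha.2]; linarith
        have hr : r ≠ 0 := by
          rintro rfl
          rw [h2, zero_mul] at h3
          exact lt_irrefl _ h3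
        have h4 : r • w ∈ vectorSpan ℝ (insert q A) := by
          have : r • w = (q -ᵥ a) - y := by rw [← hyz]; abel
          rw [this]
          exact Submodule.sub_mem _ hqa (hle1 hy)
        have := Submodule.smul_mem _ r⁻¹ h4
        rwa [smul_smul, inv_mul_cancel₀ hr, one_smul] at this
      rw [← htop]
      exact sup_le hle1 ((Submodule.span_singleton_le_iff_mem _ _).mpr hwmem)
    exact (AffineSubspace.direction_eq_top_iff_of_nonempty ⟨q, hqmem⟩).mp hdir
  have hCpos : 0 < vol.real C := by
    rw [measureReal_def, ENNReal.toReal_pos_iff]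
    refine ⟨?_, hCcomp.measure_lt_top⟩
    exact lt_of_lt_of_le (isOpen_interior.measure_pos vol hCint) (measure_mono interior_subset)
  have hd : 1 ≤ finrank ℝ E := by
    haveI : Nontrivial E := ⟨⟨w, 0, hw⟩⟩
    exact Module.finrank_pos
  refine ⟨-ψ.toLinearMap, -m, ?_, ?_, vol.real C / η, η, by positivity, hηpos, ?_⟩
  · simp only [LinearMap.neg_apply, ContinuousLinearMap.coe_coe]
    exact (neg_lt_zero.mpr hψw).ne
  · intro x hx
    simp only [LinearMap.neg_apply, ContinuousLinearMap.coe_coe]
    linarith [hmax x hx]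
  · intro s hs hsη
    set θ := s / η with hθ
    have hθ0 : 0 < θ := by positivity
    have hθ1 : θ < 1 := by rw [hθ, div_lt_one hηpos]; exact hsη
    have hθs : θ * η = s := by rw [hθ]; field_simp
    -- the lower part of C is contained in a homothetic copy
    have hsub : C ∩ {x | ψ x ≤ m - s} ⊆ (AffineMap.homothety q (1 - θ)) '' C := by
      rintro x ⟨hxC, hxψ⟩
      rw [hC, convexHull_insert (by exact hAne)] at hxC
      rw [mem_convexJoin] at hxC
      obtain ⟨q', hq', y, hy, hxy⟩ := hxC
      rw [Set.mem_singleton_iff] at hq'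
      subst hq'
      obtain ⟨l, k, hl0, hk0, hlk, rfl⟩ := hxy
      have hψx : ψ (l • q' + k • y) = m - l * η := by
        rw [map_add, map_smul, map_smul, smul_eq_mul, smul_eq_mul, hψA y hy]
        have : k = 1 - l := by linarith
        rw [this, hη]; ring
      have hlθ : θ ≤ l := by
        have h1 : m - l * η ≤ m - s := by rw [← hψx]; exact hxψ
        have h2 : θ * η ≤ l * η := by rw [hθs]; linarith
        exact le_of_mul_le_mul_right h2 hηpos
      refine ⟨((l - θ) / (1 - θ)) • q' + (k / (1 - θ)) • y, ?_, ?_⟩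
      · have hconv : Convex ℝ C := convex_convexHull ℝ _
        apply hconv
        · exact subset_convexHull ℝ _ (Set.mem_insert _ _)
        · exact convexHull_mono (Set.subset_insert _ _) hy
        · exact div_nonneg (by linarith) (by linarith)
        · exact div_nonneg hk0 (by linarith)
        · rw [← add_div]
          rw [div_eq_one_iff_eq (by linarith : (1 - θ) ≠ 0)]
          linarith
      · rw [AffineMap.homothety_apply, vsub_eq_sub, vadd_eq_add]
        have h1θ : (1 - θ) ≠ 0 := by linarith
        rw [smul_sub, smul_add, smul_smul, smul_smul, mul_div_cancel₀ _ h1θ, mul_div_cancel₀ _ h1θ]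
        have : (l - θ) • q' + k • y - (1 - θ) • q' + q' = (l - θ - (1 - θ) + 1) • q' + k • y := by
          rw [add_smul, sub_smul (l - θ), one_smul]; abel
        rw [this]
        congr 2
        ring
    have hmeas : MeasurableSet {x : E | ψ x ≤ m - s} :=
      (isClosed_le (by fun_prop) continuous_const).measurableSet
    have hle : vol.real (C ∩ {x | ψ x ≤ m - s}) ≤ (1 - θ) * vol.real C := by
      have h1 : vol.real (C ∩ {x | ψ x ≤ m - s}) ≤ vol.real ((AffineMap.homothety q (1 - θ)) '' C) := by
        refine measureReal_mono hsub ?_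
        rw [Measure.addHaar_image_homothety]
        exact ENNReal.mul_ne_top ENNReal.ofReal_ne_top hCcomp.measure_lt_top.ne
      refine h1.trans ?_
      rw [measureReal_def, Measure.addHaar_image_homothety, ENNReal.toReal_mul,
        ENNReal.toReal_ofReal (abs_nonneg _), ← measureReal_def]
      apply mul_le_mul_of_nonneg_right _ measureReal_nonneg
      rw [abs_of_nonneg (by apply pow_nonneg; linarith)]
      calc (1 - θ) ^ finrank ℝ E ≤ (1 - θ) ^ 1 :=
            pow_le_pow_of_le_one (by linarith) (by linarith) hd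
        _ = 1 - θ := pow_one _
    have hsplit : vol.real (C ∩ {x | ψ x ≤ m - s}) + vol.real (C \ {x | ψ x ≤ m - s}) = vol.real C :=
      measureReal_inter_add_sdiff hmeas hCcomp.measure_lt_top.ne
    have hfin : vol.real (C \ {x | ψ x ≤ m - s}) ≤
        vol.real {x | x ∈ P ∧ (-ψ.toLinearMap) x < -m + s} := by
      apply measureReal_mono
      · rintro x ⟨hxC, hx⟩
        simp only [Set.mem_ofPred_eq, not_le] at hx
        refine ⟨hCP hxC, ?_⟩
        simp only [LinearMap.neg_apply, ContinuousLinearMap.coe_coe]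
        linarith
      · exact (lt_of_le_of_lt (measure_mono fun x hx => hx.1) hPc.measure_lt_top).ne
    have : vol.real C / η * s = θ * vol.real C := by rw [hθ]; ring
    rw [this]
    linarith

end Gen

end Pool.Agent.H2R2.Frac
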