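import Mathlib

set_option autoImplicit false

namespace Pool.Agent.H2R2.Frac

open MeasureTheory Module
open scoped Pointwise ENNReal

section Gen

variable {E : Type*} [NormedAddCommGroup E] [NormedSpace ℝ E] [FiniteDimensional ℝ E]

/-- T6: two-valued functionals and `2 ^ d` points: a parallelotope. -/
theorem parallelotope (V : Finset E) (hV : V.card = 2 ^ finrank ℝ E)
    (htwo : ∀ w : E, w ≠ 0 → ∃ (φ : E →ₗ[ℝ] ℝ) (c h : ℝ), φ w ≠ 0 ∧ 0 < h ∧
      ∀ v ∈ V, φ v = c ∨ φ v = c + h) :
    ∃ (b : Basis (Fin (finrank ℝ E)) ℝ (Dual ℝ E)) (c h : Fin (finrank ℝ E) → ℝ),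
      (∀ i, 0 < h i) ∧
      convexHull ℝ (V : Set E) = {x | ∀ i, c i ≤ b i x ∧ b i x ≤ c i + h i} := by
  classical
  set S : Set (Dual ℝ E) := {φ | ∃ c h : ℝ, 0 < h ∧ ∀ v ∈ V, φ v = c ∨ φ v = c + h} with hS
  have hspan : Submodule.span ℝ S = ⊤ := by
    by_contra hne
    obtain ⟨f, hf0, hf⟩ := Submodule.exists_le_ker_of_lt_top _ (lt_top_iff_ne_top.2 hne)
    obtain ⟨w, hw⟩ := (Module.evalEquiv ℝ E).surjective f
    have hw0 : w ≠ 0 := by
      rintro rfl
      apply hf0
      rw [← hw]; simp
    obtain ⟨φ, c, h, hφw, hh, hφ⟩ := htwo w hw0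
    have hφS : φ ∈ Submodule.span ℝ S := Submodule.subset_span ⟨c, h, hh, hφ⟩
    have := hf hφS
    rw [LinearMap.mem_ker, ← hw] at this
    simp at this
    exact hφw this
  obtain ⟨B, hBS, hBspan, hBli⟩ := exists_linearIndependent ℝ S
  have hBtop : ⊤ ≤ Submodule.span ℝ (Set.range ((↑) : B → Dual ℝ E)) := by
    rw [Subtype.range_coe, hBspan, hspan]
  let b0 : Basis B ℝ (Dual ℝ E) := Basis.mk hBli hBtop
  have : Finite B := Module.Finite.finite_basis b0
  have : Fintype B := Fintype.ofFinite B
  have hcard : Fintype.card B = finrank ℝ E := by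
    rw [← Module.finrank_eq_card_basis b0, Subspace.dual_finrank_eq]
  let e : B ≃ Fin (finrank ℝ E) := Fintype.equivFinOfCardEq hcard
  let b := b0.reindex e
  have hbS : ∀ i, b i ∈ S := by
    intro i
    have : b i = ((e.symm i : B) : Dual ℝ E) := by
      simp [b, b0]
    rw [this]
    exact hBS (e.symm i).2
  choose c h hh hch using hbS
  refine ⟨b, c, h, hh, ?_⟩
  -- the coordinate map
  let L : E →ₗ[ℝ] (Fin (finrank ℝ E) → ℝ) := LinearMap.pi (fun i => b i)
  have hL : ∀ x i, L x i = b i x := fun x i => rfl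
  have hLinj : Function.Injective L := by
    rw [← LinearMap.ker_eq_bot, LinearMap.ker_eq_bot']
    intro x hx
    have h0 : ∀ φ : Dual ℝ E, φ x = 0 := by
      intro φ
      have hφ : φ ∈ Submodule.span ℝ (Set.range b) := by rw [b.span_eq]; trivial
      induction hφ using Submodule.span_induction with
      | mem y hy =>
        obtain ⟨i, rfl⟩ := hy
        exact congrFun hx i
      | zero => simp
      | add y z _ _ hy hz => simp [hy, hz]
      | smul a y _ hy => simp [hy]
    exact (Module.forall_dual_apply_eq_zero_iff ℝ x).1 h0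
  -- patterns
  let F : V → (Fin (finrank ℝ E) → Bool) := fun v i => decide (b i v = c i + h i)
  have hFinj : Function.Injective F := by
    intro v v' hvv
    apply Subtype.ext
    apply hLinj
    funext i
    rw [hL, hL]
    have h1 := congrFun hvv i
    simp only [F] at h1
    rcases hch i v v.2 with h2 | h2 <;> rcases hch i v' v'.2 with h3 | h3
    · rw [h2, h3]
    · exfalso
      have := hh i
      rw [h3] at h1
      simp at h1
      exact absurd h1 (by rw [h2]; linarith)
    · exfalso
      have := hh i
      rw [h2] at h1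
      simp at h1
      exact absurd h1 (by rw [h3]; linarith)
    · rw [h2, h3]
  have hFbij : Function.Bijective F := by
    rw [Fintype.bijective_iff_injective_and_card]
    refine ⟨hFinj, ?_⟩
    rw [Fintype.card_coe, hV]
    simp
  have himg : L '' (V : Set E) = Set.pi Set.univ (fun i => ({c i, c i + h i} : Set ℝ)) := by
    apply Set.Subset.antisymm
    · rintro _ ⟨v, hv, rfl⟩ i _
      rw [hL]
      rcases hch i v hv with h2 | h2
      · left; exact h2
      · right; exact h2
    · intro y hy
      obtain ⟨v, hv⟩ := hFbij.2 (fun i => decide (y i = c i + h i))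
      refine ⟨v, v.2, ?_⟩
      funext i
      rw [hL]
      have h1 := congrFun hv i
      simp only [F] at h1
      have hpos := hh i
      rcases hch i v v.2 with h2 | h2 <;> rcases hy i (Set.mem_univ i) with h3 | h3
      · rw [h2, h3]
      · exfalso
        rw [Set.mem_singleton_iff] at h3
        rw [h3] at h1
        simp at h1
        rw [h2] at h1
        linarith
      · exfalso
        rw [h2] at h1
        simp at h1
        rw [h3] at h1
        linarith
      · rw [h2, Set.mem_singleton_iff.1 h3]
  have hconv : L '' (convexHull ℝ (V : Set E)) =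
      Set.pi Set.univ (fun i => Set.Icc (c i) (c i + h i)) := by
    rw [LinearMap.image_convexHull, himg, convexHull_pi]
    congr 1
    funext i
    rw [convexHull_pair, segment_eq_Icc (by linarith [hh i])]
  ext x
  have : x ∈ convexHull ℝ (V : Set E) ↔ L x ∈ L '' (convexHull ℝ (V : Set E)) :=
    (hLinj.mem_set_image).symm
  rw [this, hconv, Set.mem_setOf_eq, Set.mem_pi]
  exact ⟨fun h1 i => h1 i (Set.mem_univ i), fun h1 i _ => h1 i⟩

end Gen

end Pool.Agent.H2R2.Frac
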