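import Mathlib

set_option autoImplicit false

/-!
# T8: from fractional coverings of the polar body to fractional separation of the faces
-/

namespace Pool.Agent.H2R2.Frac

open scoped InnerProductSpace
open Metric

/-- T8: from fractional coverings of the polar body to fractional separation of the faces. -/
theorem transfer (d : ℕ) (K : Set (EuclideanSpace ℝ (Fin d))) (hKc : IsCompact K)
    (o : EuclideanSpace ℝ (Fin d)) (ho : o ∈ interior K)
    (T : Finset (EuclideanSpace ℝ (Fin d))) (w : EuclideanSpace ℝ (Fin d) → ℝ)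
    (hw : ∀ t ∈ T, 0 ≤ w t)
    (hcov : ∀ x ∈ {v : EuclideanSpace ℝ (Fin d) | ∀ y ∈ K, ⟪v, y - o⟫_ℝ ≤ 1},
      1 ≤ ∑ t ∈ T, (interior {v : EuclideanSpace ℝ (Fin d) |
        ∀ y ∈ K, ⟪v, y - o⟫_ℝ ≤ 1}).indicator (fun _ => w t) (x - t)) :
    ∃ (H : Finset (EuclideanSpace ℝ (Fin d) × ℝ)) (w' : EuclideanSpace ℝ (Fin d) × ℝ → ℝ),
      (∀ h ∈ H, 0 ≤ w' h) ∧ ∑ h ∈ H, w' h ≤ ∑ t ∈ T, w t ∧
      ∀ u : EuclideanSpace ℝ (Fin d), u ≠ 0 →
        1 ≤ ∑ h ∈ H, {h : EuclideanSpace ℝ (Fin d) × ℝ | ⟪h.1, o⟫_ℝ < h.2 ∧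
          ∀ x ∈ K, (∀ y ∈ K, ⟪u, y⟫_ℝ ≤ ⟪u, x⟫_ℝ) → h.2 < ⟪h.1, x⟫_ℝ}.indicator w' h := by
  classical
  -- a ball around `o`
  obtain ⟨r, hr, hrK⟩ : ∃ r > 0, closedBall o r ⊆ K := by
    obtain ⟨r, hr, h⟩ := Metric.isOpen_iff.mp isOpen_interior o ho
    exact ⟨r / 2, by positivity, (closedBall_subset_ball (by linarith)).trans
      (h.trans interior_subset)⟩
  -- the polar body
  set P : Set (EuclideanSpace ℝ (Fin d)) := {v | ∀ y ∈ K, ⟪v, y - o⟫_ℝ ≤ 1} with hPdef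
  have hPcl : IsClosed P := by
    have : P = ⋂ y ∈ K, {v | ⟪v, y - o⟫_ℝ ≤ 1} := by
      ext v; simp [P]
    rw [this]
    refine isClosed_biInter fun y _ => isClosed_le ?_ continuous_const
    exact continuous_id.inner continuous_const
  have hPb : ∀ v ∈ P, ‖v‖ ≤ 1 / r := by
    intro v hv
    rcases eq_or_ne v 0 with rfl | hv0
    · simp; positivity
    have hn : 0 < ‖v‖ := norm_pos_iff.mpr hv0
    have hy : o + (r / ‖v‖) • v ∈ K := by
      apply hrK
      rw [mem_closedBall, dist_eq_norm, add_sub_cancel_left, norm_smul, Real.norm_eq_abs,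
        abs_of_pos (by positivity), div_mul_cancel₀ _ hn.ne']
    have h := hv _ hy
    rw [add_sub_cancel_left, real_inner_smul_right, real_inner_self_eq_norm_sq] at h
    rw [le_div_iff₀ hr]
    have e : r / ‖v‖ * ‖v‖ ^ 2 = ‖v‖ * r := by field_simp
    linarith
  have hPk : IsCompact P := by
    refine Metric.isCompact_of_isClosed_isBounded hPcl ?_
    refine (isBounded_iff_subset_closedBall 0).mpr ⟨1 / r, fun v hv => ?_⟩
    simpa using hPb v hv
  -- a Lebesgue number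
  obtain ⟨δ, hδ, hleb⟩ : ∃ δ > 0, ∀ v ∈ P, ∃ S ⊆ T, 1 ≤ ∑ t ∈ S, w t ∧
      ∀ t ∈ S, ∀ x ∈ ball v δ, x - t ∈ interior P := by
    have hop : ∀ S : {S : Finset (EuclideanSpace ℝ (Fin d)) // S ⊆ T ∧ 1 ≤ ∑ t ∈ S, w t},
        IsOpen (⋂ t ∈ S.1, (fun x => x - t) ⁻¹' interior P) := fun S =>
      isOpen_biInter_finset fun t _ => isOpen_interior.preimage (continuous_id.sub continuous_const)
    have hcov' : P ⊆ ⋃ S : {S : Finset (EuclideanSpace ℝ (Fin d)) // S ⊆ T ∧ 1 ≤ ∑ t ∈ S, w t},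
        ⋂ t ∈ S.1, (fun x => x - t) ⁻¹' interior P := by
      intro x hx
      have h1 := hcov x hx
      rw [Set.mem_iUnion]
      refine ⟨⟨T.filter fun t => x - t ∈ interior P, Finset.filter_subset _ _, ?_⟩, ?_⟩
      · rw [Finset.sum_filter]
        refine h1.trans (le_of_eq (Finset.sum_congr rfl fun t _ => ?_))
        rw [Set.indicator_apply]
      · rw [Set.mem_iInter₂]
        intro t ht
        exact (Finset.mem_filter.1 ht).2
    obtain ⟨δ, hδ, h⟩ := lebesgue_number_lemma_of_metric hPk hop hcov'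
    refine ⟨δ, hδ, fun v hv => ?_⟩
    obtain ⟨S, hS⟩ := h v hv
    refine ⟨S.1, S.2.1, S.2.2, fun t ht x hx => ?_⟩
    have := hS hx
    rw [Set.mem_iInter₂] at this
    exact this t ht
  set ε : ℝ := δ / 2 * r with hε
  have hε0 : 0 < ε := by positivity
  have hinj : ∀ a ∈ T, ∀ b ∈ T, (fun t => (t, ⟪t, o⟫_ℝ + ε / 2)) a =
      (fun t => (t, ⟪t, o⟫_ℝ + ε / 2)) b → a = b := by
    intro a _ b _ h
    exact (Prod.mk.inj h).1
  refine ⟨T.image (fun t => (t, ⟪t, o⟫_ℝ + ε / 2)), fun h => w h.1, ?_, ?_, ?_⟩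
  · intro h hh
    rw [Finset.mem_image] at hh
    obtain ⟨t, ht, rfl⟩ := hh
    exact hw t ht
  · rw [Finset.sum_image hinj]
  · intro u hu
    rw [Finset.sum_image hinj]
    obtain ⟨x₀, hx₀, hmax'⟩ := hKc.exists_isMaxOn (⟨o, interior_subset ho⟩ : K.Nonempty)
      (f := fun x => ⟪u, x⟫_ℝ) (continuous_const.inner continuous_id).continuousOn
    have hmax : ∀ y ∈ K, ⟪u, y⟫_ℝ ≤ ⟪u, x₀⟫_ℝ := fun y hy => hmax' hy
    have hun : 0 < ‖u‖ := norm_pos_iff.mpr hu
    -- the support function is positive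
    have hpos : 0 < ⟪u, x₀ - o⟫_ℝ := by
      have hy : o + (r / ‖u‖) • u ∈ K := by
        apply hrK
        rw [mem_closedBall, dist_eq_norm, add_sub_cancel_left, norm_smul, Real.norm_eq_abs,
          abs_of_pos (by positivity), div_mul_cancel₀ _ hun.ne']
      have h := hmax _ hy
      rw [inner_add_right, real_inner_smul_right, real_inner_self_eq_norm_sq] at h
      rw [inner_sub_right]
      have : 0 < r / ‖u‖ * ‖u‖ ^ 2 := by positivity
      linarith
    set c : ℝ := ⟪u, x₀ - o⟫_ℝ with hc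
    have hvP : c⁻¹ • u ∈ P := by
      intro y hy
      rw [real_inner_smul_left, inv_mul_le_iff₀ hpos, mul_one, hc, inner_sub_right,
        inner_sub_right]
      linarith [hmax y hy]
    obtain ⟨S, hST, hSw, hS⟩ := hleb _ hvP
    -- the key inequality
    have key : ∀ t ∈ S, ∀ x ∈ K, (∀ y ∈ K, ⟪u, y⟫_ℝ ≤ ⟪u, x⟫_ℝ) → ε ≤ ⟪t, x - o⟫_ℝ := by
      intro t ht x hx hxu'
      have hxu : ⟪u, x⟫_ℝ = ⟪u, x₀⟫_ℝ := le_antisymm (hmax x hx) (hxu' x₀ hx₀)
      have h1 : ⟪c⁻¹ • u, x - o⟫_ℝ = 1 := by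
        rw [real_inner_smul_left, inner_sub_right, hxu, ← inner_sub_right, ← hc,
          inv_mul_cancel₀ hpos.ne']
      have h2 : r ≤ ‖x - o‖ := by
        have h3 := real_inner_le_norm (c⁻¹ • u) (x - o)
        rw [h1] at h3
        have h4 := hPb _ hvP
        have h5 : 1 ≤ 1 / r * ‖x - o‖ := h3.trans (by gcongr)
        rw [one_div, ← div_eq_inv_mul, le_div_iff₀ hr] at h5
        linarith
      have hxn : 0 < ‖x - o‖ := hr.trans_le h2
      have hz : c⁻¹ • u + (δ / 2 / ‖x - o‖) • (x - o) ∈ ball (c⁻¹ • u) δ := by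
        rw [mem_ball, dist_eq_norm, add_sub_cancel_left, norm_smul, Real.norm_eq_abs,
          abs_of_pos (by positivity), div_mul_cancel₀ _ hxn.ne']
        linarith
      have hp := hS t ht _ hz
      have hp' : ⟪c⁻¹ • u + (δ / 2 / ‖x - o‖) • (x - o) - t, x - o⟫_ℝ ≤ 1 :=
        interior_subset hp x hx
      rw [inner_sub_left, inner_add_left, h1, real_inner_smul_left,
        real_inner_self_eq_norm_sq] at hp'
      have e : δ / 2 / ‖x - o‖ * ‖x - o‖ ^ 2 = δ / 2 * ‖x - o‖ := by field_simp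
      rw [e] at hp'
      have : ε ≤ δ / 2 * ‖x - o‖ := by
        rw [hε]; gcongr
      linarith
    refine hSw.trans ?_
    calc ∑ t ∈ S, w t ≤ ∑ t ∈ S, {h : EuclideanSpace ℝ (Fin d) × ℝ | ⟪h.1, o⟫_ℝ < h.2 ∧
          ∀ x ∈ K, (∀ y ∈ K, ⟪u, y⟫_ℝ ≤ ⟪u, x⟫_ℝ) → h.2 < ⟪h.1, x⟫_ℝ}.indicator
            (fun h => w h.1) (t, ⟪t, o⟫_ℝ + ε / 2) := by
          refine Finset.sum_le_sum fun t ht => le_of_eq ?_
          rw [Set.indicator_of_mem]
          refine ⟨by simp only; linarith, fun x hx hxu => ?_⟩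
          have h := key t ht x hx hxu
          rw [inner_sub_right] at h
          simp only
          linarith
      _ ≤ _ := by
          refine Finset.sum_le_sum_of_subset_of_nonneg hST fun t ht _ => ?_
          rw [Set.indicator_apply]
          split_ifs
          · exact hw t ht
          · exact le_rfl

end Pool.Agent.H2R2.Frac
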