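import Mathlib

set_option autoImplicit false

namespace Pool.Agent.H2R2.Frac

open MeasureTheory Module
open scoped Pointwise ENNReal

section Polar

open scoped InnerProductSpace
open Metric

/-- Separation from the base point. -/
private theorem T9_sep {d : ℕ} (K : Set (EuclideanSpace ℝ (Fin d))) (hKc : IsClosed K)
    (hK : Convex ℝ K) (o : EuclideanSpace ℝ (Fin d)) (ho : o ∈ K)
    (q : EuclideanSpace ℝ (Fin d)) (hq : q ∉ K) :
    ∃ x : EuclideanSpace ℝ (Fin d), (∀ y ∈ K, ⟪x, y - o⟫_ℝ ≤ 1) ∧ 1 < ⟪x, q - o⟫_ℝ := by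
  obtain ⟨f, u, hf, hu⟩ := geometric_hahn_banach_closed_point hK hKc hq
  have hs : 0 < u - f o := by have := hf o ho; linarith
  set n := (InnerProductSpace.toDual ℝ (EuclideanSpace ℝ (Fin d))).symm f with hn
  have hfn : ∀ y, ⟪n, y⟫_ℝ = f y := fun y => by
    rw [hn, InnerProductSpace.toDual_symm_apply]
  refine ⟨(u - f o)⁻¹ • n, ?_, ?_⟩
  · intro y hy
    rw [real_inner_smul_left, inner_sub_right, hfn, hfn, inv_mul_le_iff₀ hs]
    have := hf y hy
    linarith
  · rw [real_inner_smul_left, inner_sub_right, hfn, hfn, lt_inv_mul_iff₀ hs]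
    linarith

/-- T9: if the polar body is a parallelotope, the body is a cross-body. -/
theorem cross_of_polar (d : ℕ) (hd : 1 ≤ d) (K : Set (EuclideanSpace ℝ (Fin d)))
    (hKc : IsCompact K)
    (hK : Convex ℝ K) (o : EuclideanSpace ℝ (Fin d)) (ho : o ∈ interior K)
    (b : Basis (Fin d) ℝ (Dual ℝ (EuclideanSpace ℝ (Fin d)))) (c h : Fin d → ℝ)
    (hh : ∀ i, 0 < h i)
    (hP : {v : EuclideanSpace ℝ (Fin d) | ∀ y ∈ K, ⟪v, y - o⟫_ℝ ≤ 1} =
      {x | ∀ i, c i ≤ b i x ∧ b i x ≤ c i + h i}) :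
    ∃ (v : Fin d → EuclideanSpace ℝ (Fin d)) (t : Fin d → ℝ), LinearIndependent ℝ v ∧
      (∀ i, 0 < t i) ∧
      K = convexHull ℝ (Set.range (fun i => o + v i) ∪ Set.range (fun i => o - t i • v i)) := by
  classical
  have hoK : o ∈ K := interior_subset ho
  have hPx : ∀ x : EuclideanSpace ℝ (Fin d), (∀ y ∈ K, ⟪x, y - o⟫_ℝ ≤ 1) ↔
      ∀ i, c i ≤ b i x ∧ b i x ≤ c i + h i := by
    intro x
    have := Set.ext_iff.1 hP x
    exact this
  -- Riesz vectors
  let f : Fin d → EuclideanSpace ℝ (Fin d) := fun i =>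
    (InnerProductSpace.toDual ℝ (EuclideanSpace ℝ (Fin d))).symm
      (LinearMap.toContinuousLinearMap (b i))
  have hf : ∀ i x, ⟪f i, x⟫_ℝ = b i x := by
    intro i x
    simp [f]
  have hfli : LinearIndependent ℝ f := by
    rw [Fintype.linearIndependent_iff]
    intro g hg
    have hb := b.linearIndependent
    rw [Fintype.linearIndependent_iff] at hb
    apply hb g
    ext x
    simp only [LinearMap.coe_sum, Finset.sum_apply, LinearMap.smul_apply, LinearMap.zero_apply,
      smul_eq_mul]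
    have h1 : ⟪∑ i, g i • f i, x⟫_ℝ = 0 := by rw [hg]; simp
    rw [sum_inner] at h1
    rw [← h1]
    refine Finset.sum_congr rfl fun i _ => ?_
    rw [real_inner_smul_left, hf]
  -- the signs
  obtain ⟨R, hR⟩ := hKc.isBounded.subset_closedBall o
  have hcpos : ∀ i, c i < 0 ∧ 0 < c i + h i := by
    intro i
    have hbi : b i ≠ 0 := b.ne_zero i
    obtain ⟨w, hw⟩ : ∃ w, b i w ≠ 0 := by
      by_contra hcon
      push Not at hcon
      exact hbi (LinearMap.ext hcon)
    set w1 := (b i w)⁻¹ • w with hw1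
    have hbw1 : b i w1 = 1 := by
      rw [hw1, map_smul, smul_eq_mul, inv_mul_cancel₀ hw]
    set M : ℝ := (‖w1‖ + 1) * (|R| + 1) with hM
    have hMpos : 0 < M := by positivity
    have key : ∀ a : ℝ, |a| ≤ M⁻¹ → ∀ y ∈ K, ⟪a • w1, y - o⟫_ℝ ≤ 1 := by
      intro a ha y hy
      have h1 : ‖y - o‖ ≤ |R| := by
        have := hR hy
        rw [mem_closedBall, dist_eq_norm] at this
        exact this.trans (le_abs_self R)
      have h2 : ⟪a • w1, y - o⟫_ℝ ≤ ‖a • w1‖ * ‖y - o‖ := real_inner_le_norm _ _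
      rw [norm_smul, Real.norm_eq_abs] at h2
      have h3 : |a| * ‖w1‖ * ‖y - o‖ ≤ M⁻¹ * ((‖w1‖ + 1) * (|R| + 1)) := by
        rw [mul_assoc]
        apply mul_le_mul ha _ (by positivity) (by positivity)
        apply mul_le_mul (by linarith) (by linarith) (norm_nonneg _) (by positivity)
      have h4 : M⁻¹ * ((‖w1‖ + 1) * (|R| + 1)) = 1 := by
        rw [← hM]; exact inv_mul_cancel₀ hMpos.ne'
      linarith
    have hMi : 0 < M⁻¹ := inv_pos.2 hMpos
    have h5 := (hPx _).1 (key (M⁻¹) (by rw [abs_of_pos hMi])) i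
    have h6 := (hPx _).1 (key (-M⁻¹) (by rw [abs_neg, abs_of_pos hMi])) i
    rw [map_smul, hbw1, smul_eq_mul, mul_one] at h5 h6
    constructor
    · linarith [h6.1]
    · linarith [h5.2]
  let v : Fin d → EuclideanSpace ℝ (Fin d) := fun i => (c i + h i)⁻¹ • f i
  let t : Fin d → ℝ := fun i => (c i + h i) / (-c i)
  have ht : ∀ i, 0 < t i := fun i => div_pos (hcpos i).2 (by linarith [(hcpos i).1])
  have hv1 : ∀ i x, ⟪x, v i⟫_ℝ = (c i + h i)⁻¹ * b i x := by
    intro i x
    simp only [v]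
    rw [real_inner_smul_right, real_inner_comm, hf]
  have hv2 : ∀ i x, ⟪x, - (t i • v i)⟫_ℝ = (c i)⁻¹ * b i x := by
    intro i x
    rw [inner_neg_right, real_inner_smul_right, hv1]
    simp only [t]
    have h1 := (hcpos i).1
    have h2 := (hcpos i).2
    field_simp
  have hmem : ∀ x : EuclideanSpace ℝ (Fin d),
      (∀ i, ⟪x, v i⟫_ℝ ≤ 1 ∧ ⟪x, - (t i • v i)⟫_ℝ ≤ 1) ↔
      ∀ i, c i ≤ b i x ∧ b i x ≤ c i + h i := by
    intro x
    refine forall_congr' fun i => ?_
    rw [hv1, hv2, inv_mul_le_iff₀ (hcpos i).2, mul_one]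
    have h1 := (hcpos i).1
    have h3 : (c i)⁻¹ * b i x ≤ 1 ↔ c i ≤ b i x := by
      rw [← div_eq_inv_mul, div_le_one_iff]
      constructor
      · rintro (h4 | h4 | h4)
        · linarith [h4.1]
        · rw [h4] at h1; exact absurd h1 (lt_irrefl 0)
        · exact h4.2
      · intro h4
        right; right
        exact ⟨h1, h4⟩
    rw [h3]
    tauto
  refine ⟨v, t, ?_, ht, ?_⟩
  · rw [Fintype.linearIndependent_iff] at hfli ⊢
    intro g hg i
    have h1 := hfli (fun i => g i * (c i + h i)⁻¹) (by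
      rw [← hg]
      refine Finset.sum_congr rfl fun i _ => ?_
      simp only [v]
      rw [smul_smul]) i
    have h2 := (hcpos i).2
    rcases mul_eq_zero.1 h1 with h3 | h3
    · exact h3
    · exact absurd h3 (inv_ne_zero h2.ne')
  set Q := convexHull ℝ (Set.range (fun i => o + v i) ∪ Set.range (fun i => o - t i • v i))
    with hQ
  have hQ1 : ∀ i, o + v i ∈ Q := fun i => subset_convexHull ℝ _ (Or.inl ⟨i, rfl⟩)
  have hQ2 : ∀ i, o - t i • v i ∈ Q := fun i => subset_convexHull ℝ _ (Or.inr ⟨i, rfl⟩)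
  have hoQ : o ∈ Q := by
    have i : Fin d := ⟨0, hd⟩
    have h1 := (convex_convexHull ℝ (Set.range (fun i => o + v i) ∪
      Set.range (fun i => o - t i • v i))) (hQ1 i) (hQ2 i)
      (a := t i / (1 + t i)) (b := 1 / (1 + t i)) (by have := ht i; positivity)
      (by have := ht i; positivity) (by have := ht i; field_simp; ring)
    have h2 : (t i / (1 + t i)) • (o + v i) + (1 / (1 + t i)) • (o - t i • v i) = o := by
      have h3 := ht i
      have h4 : (1 + t i) ≠ 0 := by positivity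
      have e1 : (t i / (1 + t i)) • (o + v i) + (1 / (1 + t i)) • (o - t i • v i) =
        (t i / (1 + t i) + 1 / (1 + t i)) • o +
          (t i / (1 + t i) - 1 / (1 + t i) * t i) • v i := by
        module
      rw [e1]
      have e2 : t i / (1 + t i) + 1 / (1 + t i) = 1 := by field_simp; ring
      have e3 : t i / (1 + t i) - 1 / (1 + t i) * t i = 0 := by field_simp; ring
      rw [e2, e3]; simp
    rw [h2] at h1
    exact h1
  apply Set.Subset.antisymm
  · intro y hy
    by_contra hyQ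
    have hQcl : IsClosed Q := by
      rw [hQ]
      exact ((Set.finite_range _).union (Set.finite_range _)).isClosed_convexHull ℝ
    obtain ⟨x, hx1, hx2⟩ := T9_sep Q hQcl (convex_convexHull ℝ _) o hoQ y hyQ
    have h1 : ∀ i, ⟪x, v i⟫_ℝ ≤ 1 ∧ ⟪x, - (t i • v i)⟫_ℝ ≤ 1 := by
      intro i
      constructor
      · have := hx1 _ (hQ1 i)
        rwa [add_sub_cancel_left] at this
      · have := hx1 _ (hQ2 i)
        have e : o - t i • v i - o = - (t i • v i) := by abel
        rwa [e] at this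
    have h2 := (hPx x).2 ((hmem x).1 h1) y hy
    linarith
  · apply convexHull_min _ hK
    have key : ∀ q, (∀ x : EuclideanSpace ℝ (Fin d), (∀ y ∈ K, ⟪x, y - o⟫_ℝ ≤ 1) →
        ⟪x, q - o⟫_ℝ ≤ 1) → q ∈ K := by
      intro q hq
      by_contra hqK
      obtain ⟨x, hx1, hx2⟩ := T9_sep K hKc.isClosed hK o hoK q hqK
      have := hq x hx1
      linarith
    rintro _ (⟨i, rfl⟩ | ⟨i, rfl⟩)
    · apply key
      intro x hx
      have h1 := ((hmem x).2 ((hPx x).1 hx) i).1
      simpa using h1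
    · apply key
      intro x hx
      have h1 := ((hmem x).2 ((hPx x).1 hx) i).2
      have e : o - t i • v i - o = - (t i • v i) := by abel
      rw [e]
      exact h1

end Polar

end Pool.Agent.H2R2.Frac
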