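import Mathlib
import Pool.Agent.H2R2.Frac.T1
import Pool.Agent.H2R2.Frac.T2
import Pool.Agent.H2R2.Frac.T3
import Pool.Agent.H2R2.Frac.T4ab
import Pool.Agent.H2R2.Frac.T4c
import Pool.Agent.H2R2.Frac.T5
import Pool.Agent.H2R2.Frac.T6
import Pool.Agent.H2R2.Frac.T8
import Pool.Agent.H2R2.Frac.T9
import Pool.Agent.H2R2.Frac.T10
import Pool.Agent.H2R2.Frac.T11

set_option autoImplicit false

/-!
Assembly: convex bodies with fractional covering number at least `2 ^ d` are parallelotopes.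
-/

namespace Pool.Agent.H2R2.Frac

open MeasureTheory Module
open scoped Pointwise ENNReal

section Main

variable {E : Type*} [NormedAddCommGroup E] [NormedSpace ℝ E] [FiniteDimensional ℝ E]
  [MeasurableSpace E] [BorelSpace E]

theorem extremal_box (vol : Measure E) [vol.IsAddHaarMeasure] (P : Set E) (hPc : IsCompact P)
    (hP : Convex ℝ P) (hPi : (interior P).Nonempty) (hd : 1 ≤ finrank ℝ E)
    (hfrac : ∀ (T : Finset E) (w : E → ℝ), (∀ t ∈ T, 0 ≤ w t) →
      (∀ x ∈ P, 1 ≤ ∑ t ∈ T, (interior P).indicator (fun _ => w t) (x - t)) →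
      2 ^ finrank ℝ E ≤ ∑ t ∈ T, w t) :
    ∃ (b : Basis (Fin (finrank ℝ E)) ℝ (Dual ℝ E)) (c h : Fin (finrank ℝ E) → ℝ),
      (∀ i, 0 < h i) ∧ P = {x | ∀ i, c i ≤ b i x ∧ b i x ≤ c i + h i} := by
  classical
  obtain ⟨μ, hμ1, hμ2, hμ3⟩ := exists_measure P hPc hPi (2 ^ finrank ℝ E) (by positivity) hfrac
  have htile := tile_ae vol P hPc hP hPi μ hμ2 hμ3
  obtain ⟨V, hVc, hPV, hV⟩ := exists_vertices vol P hPc hP hPi μ hμ2 hμ3 htile
  have hVP : ∀ v ∈ V, v ∈ P := by
    intro v hv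
    rw [hPV]
    exact subset_convexHull ℝ _ hv
  have hpos : 0 < vol.real P := by
    refine ENNReal.toReal_pos ?_ hPc.measure_lt_top.ne
    exact (isOpen_interior.measure_pos vol hPi |>.trans_le (measure_mono interior_subset)).ne'
  have key := parallelotope V hVc ?_
  · obtain ⟨b, c, h, hh, hbox⟩ := key
    exact ⟨b, c, h, hh, by rw [hPV]; exact hbox⟩
  intro w hw
  have hPi' : (interior (convexHull ℝ (V : Set E))).Nonempty := by rw [← hPV]; exact hPi
  obtain ⟨φ, c, hφw, hφc, c₀, s₀, hc₀, hs₀, hlow⟩ := exists_facet vol V hPi' w hw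
  rw [← hPV] at hφc hlow
  have hφcont : Continuous φ := φ.continuous_of_finiteDimensional
  -- top point
  obtain ⟨z, hzP, hz⟩ := hPc.exists_isMaxOn (hPi.mono interior_subset) hφcont.continuousOn
  have hzmax : ∀ x ∈ P, φ x ≤ φ z := fun x hx => hz hx
  set h := φ z - c with hh
  -- finiteness
  have hfin : ∀ s : ℝ, vol {x | x ∈ P ∧ φ x < c + s} ≠ ⊤ := fun s =>
    ((measure_mono (fun x hx => hx.1)).trans_lt hPc.measure_lt_top).ne
  set G : ℝ → ℝ := fun s => vol.real {x | x ∈ P ∧ φ x < c + s} with hG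
  have hmono : Monotone G := by
    intro s s' hss
    refine measureReal_mono ?_ (hfin s')
    intro x hx
    exact ⟨hx.1, by have := hx.2; linarith⟩
  have h0 : ∀ s, s ≤ 0 → G s = 0 := by
    intro s hs
    have : {x | x ∈ P ∧ φ x < c + s} = ∅ := by
      ext x
      simp only [Set.mem_ofPred_eq, Set.mem_empty_iff_false, iff_false, not_and, not_lt]
      intro hx
      linarith [hφc x hx]
    simp only [hG, this, measureReal_empty]
  have hhpos : 0 < h := by
    by_contra hcon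
    push Not at hcon
    -- then `φ` is constant on `P`
    have hconst : ∀ x ∈ P, φ x = c := by
      intro x hx
      have h1 := hφc x hx
      have h2 := hzmax x hx
      linarith
    obtain ⟨p, hp⟩ := hPi
    obtain ⟨r, hr, hball⟩ := Metric.isOpen_iff.mp isOpen_interior p hp
    have hwn : 0 < ‖w‖ := norm_pos_iff.mpr hw
    have hq : p + (r / 2 / ‖w‖) • w ∈ P := by
      apply interior_subset
      apply hball
      rw [Metric.mem_ball, dist_eq_norm, add_sub_cancel_left, norm_smul, Real.norm_eq_abs,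
        abs_of_pos (by positivity), div_mul_cancel₀ _ hwn.ne']
      linarith
    have e1 := hconst _ hq
    have e2 := hconst _ (interior_subset hp)
    rw [map_add, map_smul, smul_eq_mul, e2] at e1
    have : r / 2 / ‖w‖ * φ w = 0 := by linarith
    rcases mul_eq_zero.mp this with h3 | h3
    · have : 0 < r / 2 / ‖w‖ := by positivity
      linarith
    · exact hφw h3
  have htv := two_values V (finrank ℝ E) hd hVc (fun v => φ v - c)
    (fun v hv => by have := hφc v (hVP v hv); linarith) h hhpos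
    (fun v hv => by have := hzmax v (hVP v hv); simp only [hh]; linarith) G hmono h0
    (fun τ r r' hτ hτ' hr => slice_homothety hd vol P hPc hP φ c h z hzP (by rw [hh]; ring) τ r r' hτ
      hτ' hr)
    (fun s _ => slice_eq vol P hPc hP V hVP hV φ c s) c₀ s₀ hc₀ hs₀ hlow
  refine ⟨φ, c, h, hφw, hhpos, fun v hv => ?_⟩
  rcases htv v hv with h1 | h1
  · left; linarith
  · right; linarith

end Main

section Final

open scoped InnerProductSpace
open Metric

theorem main (d : ℕ) (hd : 1 ≤ d) (K : Set (EuclideanSpace ℝ (Fin d)))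
    (hKc : IsCompact K) (hK : Convex ℝ K) (o : EuclideanSpace ℝ (Fin d)) (ho : o ∈ interior K) :
    (∃ (H : Finset (EuclideanSpace ℝ (Fin d) × ℝ)) (w : EuclideanSpace ℝ (Fin d) × ℝ → ℝ),
      (∀ h ∈ H, 0 ≤ w h) ∧ ∑ h ∈ H, w h ≤ 2 ^ d ∧
      ∀ u : EuclideanSpace ℝ (Fin d), u ≠ 0 →
        1 ≤ ∑ h ∈ H, {h : EuclideanSpace ℝ (Fin d) × ℝ | ⟪h.1, o⟫_ℝ < h.2 ∧
          ∀ x ∈ K, (∀ y ∈ K, ⟪u, y⟫_ℝ ≤ ⟪u, x⟫_ℝ) → h.2 < ⟪h.1, x⟫_ℝ}.indicator w h) ∧
    ((∀ (H : Finset (EuclideanSpace ℝ (Fin d) × ℝ)) (w : EuclideanSpace ℝ (Fin d) × ℝ → ℝ),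
      (∀ h ∈ H, 0 ≤ w h) →
      (∀ u : EuclideanSpace ℝ (Fin d), u ≠ 0 →
        1 ≤ ∑ h ∈ H, {h : EuclideanSpace ℝ (Fin d) × ℝ | ⟪h.1, o⟫_ℝ < h.2 ∧
          ∀ x ∈ K, (∀ y ∈ K, ⟪u, y⟫_ℝ ≤ ⟪u, x⟫_ℝ) → h.2 < ⟪h.1, x⟫_ℝ}.indicator w h) →
      2 ^ d ≤ ∑ h ∈ H, w h) ↔
    ∃ (v : Fin d → EuclideanSpace ℝ (Fin d)) (t : Fin d → ℝ), LinearIndependent ℝ v ∧
      (∀ i, 0 < t i) ∧
      K = convexHull ℝ (Set.range (fun i => o + v i) ∪ Set.range (fun i => o - t i • v i))) := by
  classical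
  -- the polar body
  set P : Set (EuclideanSpace ℝ (Fin d)) := {v | ∀ y ∈ K, ⟪v, y - o⟫_ℝ ≤ 1} with hPdef
  have hfr : finrank ℝ (EuclideanSpace ℝ (Fin d)) = d := by simp
  obtain ⟨r, hr, hrK⟩ : ∃ r > 0, closedBall o r ⊆ K := by
    obtain ⟨r, hr, h⟩ := Metric.isOpen_iff.mp isOpen_interior o ho
    exact ⟨r / 2, by positivity, (closedBall_subset_ball (by linarith)).trans
      (h.trans interior_subset)⟩
  obtain ⟨R, hR⟩ : ∃ R : ℝ, ∀ y ∈ K, ‖y - o‖ ≤ R := by
    obtain ⟨R, hR⟩ := hKc.isBounded.subset_closedBall o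
    exact ⟨R, fun y hy => by simpa [dist_eq_norm] using hR hy⟩
  have hR0 : 0 ≤ R := (norm_nonneg _).trans (hR o (interior_subset ho))
  have hPc : Convex ℝ P := by
    intro v hv w hw a b ha hb hab y hy
    rw [inner_add_left, real_inner_smul_left, real_inner_smul_left]
    nlinarith [hv y hy, hw y hy]
  have hPcl : IsClosed P := by
    have : P = ⋂ y ∈ K, {v | ⟪v, y - o⟫_ℝ ≤ 1} := by
      ext v; simp [P]
    rw [this]
    refine isClosed_biInter fun y _ => isClosed_le ?_ continuous_const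
    exact continuous_id.inner continuous_const
  have hPb : ∀ v ∈ P, ‖v‖ ≤ 1 / r := by
    intro v hv
    rcases eq_or_ne v 0 with rfl | hv0
    · simp; positivity
    have hn : 0 < ‖v‖ := norm_pos_iff.mpr hv0
    have hy : o + (r / ‖v‖) • v ∈ K := by
      apply hrK
      rw [mem_closedBall, dist_eq_norm, add_sub_cancel_left, norm_smul, Real.norm_eq_abs,
        abs_of_pos (by positivity), div_mul_cancel₀ _ hn.ne']
    have h := hv _ hy
    rw [add_sub_cancel_left, real_inner_smul_right, real_inner_self_eq_norm_sq] at h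
    rw [le_div_iff₀ hr]
    have e : r / ‖v‖ * ‖v‖ ^ 2 = ‖v‖ * r := by field_simp
    linarith
  have hPk : IsCompact P := by
    refine Metric.isCompact_of_isClosed_isBounded hPcl ?_
    refine (isBounded_iff_subset_closedBall 0).mpr ⟨1 / r, fun v hv => ?_⟩
    simpa using hPb v hv
  have hPi : (interior P).Nonempty := by
    refine ⟨0, ?_⟩
    rw [mem_interior]
    refine ⟨ball 0 (1 / (R + 1)), ?_, isOpen_ball, by simp; positivity⟩
    intro v hv y hy
    rw [mem_ball_zero_iff] at hv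
    calc ⟪v, y - o⟫_ℝ ≤ ‖v‖ * ‖y - o‖ := real_inner_le_norm _ _
      _ ≤ 1 / (R + 1) * R := by
          gcongr
          exact hR y hy
      _ ≤ 1 := by
          rw [div_mul_eq_mul_div, one_mul, div_le_one (by positivity)]
          linarith
  -- extremal polar bodies are boxes
  have hbox : (∀ (T : Finset (EuclideanSpace ℝ (Fin d))) (w : EuclideanSpace ℝ (Fin d) → ℝ),
      (∀ t ∈ T, 0 ≤ w t) →
      (∀ x ∈ P, 1 ≤ ∑ t ∈ T, (interior P).indicator (fun _ => w t) (x - t)) →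
      2 ^ d ≤ ∑ t ∈ T, w t) →
      ∃ (b : Basis (Fin (finrank ℝ (EuclideanSpace ℝ (Fin d)))) ℝ
        (Dual ℝ (EuclideanSpace ℝ (Fin d))))
        (c h : Fin (finrank ℝ (EuclideanSpace ℝ (Fin d))) → ℝ),
      (∀ i, 0 < h i) ∧ P = {x | ∀ i, c i ≤ b i x ∧ b i x ≤ c i + h i} := by
    intro hfrac
    refine extremal_box (volume : Measure (EuclideanSpace ℝ (Fin d))) P hPk hPc hPi
      (by rw [hfr]; exact hd) ?_
    rw [hfr]
    exact hfrac
  have hbox' : (∀ (T : Finset (EuclideanSpace ℝ (Fin d))) (w : EuclideanSpace ℝ (Fin d) → ℝ),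
      (∀ t ∈ T, 0 ≤ w t) →
      (∀ x ∈ P, 1 ≤ ∑ t ∈ T, (interior P).indicator (fun _ => w t) (x - t)) →
      2 ^ d ≤ ∑ t ∈ T, w t) →
      ∃ (b : Basis (Fin d) ℝ (Dual ℝ (EuclideanSpace ℝ (Fin d)))) (c h : Fin d → ℝ),
      (∀ i, 0 < h i) ∧ P = {x | ∀ i, c i ≤ b i x ∧ b i x ≤ c i + h i} := by
    intro hfrac
    obtain ⟨b, c, h, hh, hb⟩ := hbox hfrac
    let e : Fin (finrank ℝ (EuclideanSpace ℝ (Fin d))) ≃ Fin d := finCongr hfr
    refine ⟨b.reindex e, fun i => c (e.symm i), fun i => h (e.symm i), fun i => hh _, ?_⟩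
    rw [hb]
    ext x
    simp only [Set.mem_ofPred_eq, Basis.coe_reindex, Function.comp_apply]
    constructor
    · intro hx i; exact hx _
    · intro hx i
      have := hx (e i)
      simpa using this
  refine ⟨?_, ?_, ?_⟩
  · -- existence of a family of total weight at most `2 ^ d`
    by_cases hfrac : ∀ (T : Finset (EuclideanSpace ℝ (Fin d)))
      (w : EuclideanSpace ℝ (Fin d) → ℝ), (∀ t ∈ T, 0 ≤ w t) →
      (∀ x ∈ P, 1 ≤ ∑ t ∈ T, (interior P).indicator (fun _ => w t) (x - t)) →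
      2 ^ d ≤ ∑ t ∈ T, w t
    · obtain ⟨b, c, h, hh, hb⟩ := hbox hfrac
      obtain ⟨T, hTc, hT⟩ := box_cover b c h hh P hb
      obtain ⟨H, w', hw', hsum, hsep⟩ := transfer d K hKc o ho T (fun _ => 1)
        (fun _ _ => zero_le_one) (by
          intro x hx
          obtain ⟨t, ht, hxt⟩ := hT x hx
          calc (1 : ℝ) = (interior P).indicator (fun _ => (1 : ℝ)) (x - t) := by
                rw [Set.indicator_of_mem hxt]
            _ ≤ ∑ t ∈ T, (interior P).indicator (fun _ => (1 : ℝ)) (x - t) :=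
                Finset.single_le_sum (f := fun t =>
                  (interior P).indicator (fun _ => (1 : ℝ)) (x - t))
                  (fun _ _ => Set.indicator_nonneg (fun _ _ => zero_le_one) _) ht)
      refine ⟨H, w', hw', hsum.trans ?_, hsep⟩
      rw [Finset.sum_const, nsmul_eq_mul, mul_one]
      rw [hfr] at hTc
      exact_mod_cast hTc
    · push Not at hfrac
      obtain ⟨T, w, hw, hcov, hlt⟩ := hfrac
      obtain ⟨H, w', hw', hsum, hsep⟩ := transfer d K hKc o ho T w hw hcov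
      exact ⟨H, w', hw', hsum.trans hlt.le, hsep⟩
  · -- equality implies cross-body
    intro hall
    have hfrac : ∀ (T : Finset (EuclideanSpace ℝ (Fin d)))
      (w : EuclideanSpace ℝ (Fin d) → ℝ), (∀ t ∈ T, 0 ≤ w t) →
      (∀ x ∈ P, 1 ≤ ∑ t ∈ T, (interior P).indicator (fun _ => w t) (x - t)) →
      2 ^ d ≤ ∑ t ∈ T, w t := by
      intro T w hw hcov
      obtain ⟨H, w', hw', hsum, hsep⟩ := transfer d K hKc o ho T w hw hcov
      exact (hall H w' hw' hsep).trans hsum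
    obtain ⟨b, c, h, hh, hb⟩ := hbox' hfrac
    exact cross_of_polar d hd K hKc hK o ho b c h hh hb
  · rintro ⟨v, t, hv, ht, hKe⟩ H w hw hsep
    exact cross_lower d K o v t hv ht hKe hd H w hw hsep

end Final

end Pool.Agent.H2R2.Frac
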