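import Mathlib
import Pool.Agent.H2R2.Frac.Main

set_option autoImplicit false

/-!
Primal form: fractional coverings of a convex body by translates of its interior.
-/

namespace Pool.Agent.H2R2.Frac

open MeasureTheory Module

/-- The vertices of a parallelotope: every translate of the interior contains at most one. -/
theorem box_lower (d : ℕ) (hd : 1 ≤ d) (p : EuclideanSpace ℝ (Fin d)) (v : Fin d → EuclideanSpace ℝ (Fin d))
    (hv : LinearIndependent ℝ v) (K : Set (EuclideanSpace ℝ (Fin d)))
    (hK : K = {x | ∃ a : Fin d → ℝ, (∀ i, 0 ≤ a i ∧ a i ≤ 1) ∧ x = p + ∑ i, a i • v i})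
    (T : Finset (EuclideanSpace ℝ (Fin d))) (w : EuclideanSpace ℝ (Fin d) → ℝ)
    (hw : ∀ t ∈ T, 0 ≤ w t)
    (hcov : ∀ x ∈ K, 1 ≤ ∑ t ∈ T, (interior K).indicator (fun _ => w t) (x - t)) :
    2 ^ d ≤ ∑ t ∈ T, w t := by
  classical
  -- coordinates
  have hcard : Fintype.card (Fin d) = finrank ℝ (EuclideanSpace ℝ (Fin d)) := by simp
  haveI : Nonempty (Fin d) := ⟨⟨0, hd⟩⟩
  let b : Basis (Fin d) ℝ (EuclideanSpace ℝ (Fin d)) :=
    basisOfLinearIndependentOfCardEqFinrank hv hcard
  have hb : ∀ i, b i = v i := fun i => by simp [b]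
  -- the vertices
  let q : (Fin d → Bool) → EuclideanSpace ℝ (Fin d) := fun e =>
    p + ∑ i, (if e i then (1 : ℝ) else 0) • v i
  have hq : ∀ e, q e ∈ K := by
    intro e
    rw [hK]
    refine ⟨fun i => if e i then 1 else 0, fun i => ?_, rfl⟩
    by_cases h : e i = true <;> simp [h]
  -- coordinates of interior points are strictly between 0 and 1
  have hrepr : ∀ (a : Fin d → ℝ) (i : Fin d), b.repr (∑ j, a j • v j) i = a i := by
    intro a i
    have : ∑ j, a j • v j = ∑ j, a j • b j := by simp [hb]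
    rw [this]
    rw [Basis.repr_sum_self]
  have hKc : ∀ x ∈ K, ∀ i, 0 ≤ b.repr (x - p) i ∧ b.repr (x - p) i ≤ 1 := by
    intro x hx i
    rw [hK] at hx
    obtain ⟨a, ha, rfl⟩ := hx
    rw [add_sub_cancel_left, hrepr]
    exact ha i
  have hint : ∀ x ∈ interior K, ∀ i, 0 < b.repr (x - p) i ∧ b.repr (x - p) i < 1 := by
    intro x hx i
    obtain ⟨r, hr, hball⟩ := Metric.isOpen_iff.mp isOpen_interior x hx
    have hvn : 0 < ‖v i‖ := norm_pos_iff.mpr (hv.ne_zero i)
    have hs : 0 < r / 2 / ‖v i‖ := by positivity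
    have hmem : ∀ s : ℝ, |s| ≤ r / 2 / ‖v i‖ → x + s • v i ∈ K := by
      intro s hs'
      apply interior_subset
      apply hball
      rw [Metric.mem_ball, dist_eq_norm, add_sub_cancel_left, norm_smul, Real.norm_eq_abs]
      calc |s| * ‖v i‖ ≤ r / 2 / ‖v i‖ * ‖v i‖ := by gcongr
        _ = r / 2 := div_mul_cancel₀ _ hvn.ne'
        _ < r := by linarith
    have hco : ∀ s : ℝ, b.repr (x + s • v i - p) i = b.repr (x - p) i + s := by
      intro s
      have : x + s • v i - p = (x - p) + s • b i := by rw [hb]; abel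
      rw [this]
      simp
    have h1 := hKc _ (hmem (r / 2 / ‖v i‖) (by rw [abs_of_pos hs])) i
    have h2 := hKc _ (hmem (-(r / 2 / ‖v i‖)) (by rw [abs_neg, abs_of_pos hs])) i
    rw [hco] at h1 h2
    constructor
    · linarith [h2.1]
    · linarith [h1.2]
  -- every translate contains at most one vertex
  have hone : ∀ t : EuclideanSpace ℝ (Fin d), t ∈ T →
      ∑ e : Fin d → Bool, (interior K).indicator (fun _ => w t) (q e - t) ≤ w t := by
    intro t ht
    by_cases hex : ∃ e, q e - t ∈ interior K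
    · obtain ⟨e, he⟩ := hex
      rw [Finset.sum_eq_single e]
      · rw [Set.indicator_of_mem he]
      · intro e' _ hne
        apply Set.indicator_of_notMem
        intro he'
        apply hne
        funext i
        have h1 := hint _ he i
        have h2 := hint _ he' i
        have e1 : ∀ f : Fin d → Bool, b.repr (q f - t - p) i =
            (if f i then (1 : ℝ) else 0) - b.repr t i := by
          intro f
          have : q f - t - p = (∑ j, (if f j then (1 : ℝ) else 0) • v j) - t := by
            simp only [q]; abel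
          rw [this, map_sub, Finsupp.sub_apply, hrepr]
        rw [e1] at h1 h2
        cases hh : e i <;> cases hh' : e' i <;> simp [hh, hh'] at h1 h2 ⊢ <;> linarith
      · intro h; exact absurd (Finset.mem_univ _) h
    · push Not at hex
      rw [Finset.sum_eq_zero]
      · exact hw t ht
      · intro e _
        exact Set.indicator_of_notMem (hex e) _
  calc (2 : ℝ) ^ d = ∑ _e : Fin d → Bool, (1 : ℝ) := by simp
    _ ≤ ∑ e : Fin d → Bool, ∑ t ∈ T, (interior K).indicator (fun _ => w t) (q e - t) :=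
        Finset.sum_le_sum fun e _ => hcov _ (hq e)
    _ = ∑ t ∈ T, ∑ e : Fin d → Bool, (interior K).indicator (fun _ => w t) (q e - t) :=
        Finset.sum_comm
    _ ≤ ∑ t ∈ T, w t := Finset.sum_le_sum fun t ht => hone t ht

/-- Fractional coverings of a convex body by translates of its interior. -/
theorem primal (d : ℕ) (hd : 1 ≤ d) (K : Set (EuclideanSpace ℝ (Fin d)))
    (hKc : IsCompact K) (hK : Convex ℝ K) (hKi : (interior K).Nonempty) :
    (∃ (T : Finset (EuclideanSpace ℝ (Fin d))) (w : EuclideanSpace ℝ (Fin d) → ℝ),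
      (∀ t ∈ T, 0 ≤ w t) ∧ ∑ t ∈ T, w t ≤ 2 ^ d ∧
      ∀ x ∈ K, 1 ≤ ∑ t ∈ T, (interior K).indicator (fun _ => w t) (x - t)) ∧
    ((∀ (T : Finset (EuclideanSpace ℝ (Fin d))) (w : EuclideanSpace ℝ (Fin d) → ℝ),
      (∀ t ∈ T, 0 ≤ w t) →
      (∀ x ∈ K, 1 ≤ ∑ t ∈ T, (interior K).indicator (fun _ => w t) (x - t)) →
      2 ^ d ≤ ∑ t ∈ T, w t) ↔
    ∃ (p : EuclideanSpace ℝ (Fin d)) (v : Fin d → EuclideanSpace ℝ (Fin d)),
      LinearIndependent ℝ v ∧
      K = {x | ∃ a : Fin d → ℝ, (∀ i, 0 ≤ a i ∧ a i ≤ 1) ∧ x = p + ∑ i, a i • v i}) := by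
  classical
  have hfr : finrank ℝ (EuclideanSpace ℝ (Fin d)) = d := by simp
  have hbox : (∀ (T : Finset (EuclideanSpace ℝ (Fin d))) (w : EuclideanSpace ℝ (Fin d) → ℝ),
      (∀ t ∈ T, 0 ≤ w t) →
      (∀ x ∈ K, 1 ≤ ∑ t ∈ T, (interior K).indicator (fun _ => w t) (x - t)) →
      2 ^ d ≤ ∑ t ∈ T, w t) →
      ∃ (b : Basis (Fin (finrank ℝ (EuclideanSpace ℝ (Fin d)))) ℝ
        (Dual ℝ (EuclideanSpace ℝ (Fin d))))
        (c h : Fin (finrank ℝ (EuclideanSpace ℝ (Fin d))) → ℝ),
      (∀ i, 0 < h i) ∧ K = {x | ∀ i, c i ≤ b i x ∧ b i x ≤ c i + h i} := by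
    intro hfrac
    refine extremal_box (volume : Measure (EuclideanSpace ℝ (Fin d))) K hKc hK hKi
      (by rw [hfr]; exact hd) ?_
    rw [hfr]
    exact hfrac
  refine ⟨?_, ?_, ?_⟩
  · by_cases hfrac : ∀ (T : Finset (EuclideanSpace ℝ (Fin d)))
      (w : EuclideanSpace ℝ (Fin d) → ℝ), (∀ t ∈ T, 0 ≤ w t) →
      (∀ x ∈ K, 1 ≤ ∑ t ∈ T, (interior K).indicator (fun _ => w t) (x - t)) →
      2 ^ d ≤ ∑ t ∈ T, w t
    · obtain ⟨b, c, h, hh, hb⟩ := hbox hfrac
      obtain ⟨T, hTc, hT⟩ := box_cover b c h hh K hb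
      refine ⟨T, fun _ => 1, fun _ _ => zero_le_one, ?_, ?_⟩
      · rw [Finset.sum_const, nsmul_eq_mul, mul_one]
        rw [hfr] at hTc
        exact_mod_cast hTc
      · intro x hx
        obtain ⟨t, ht, hxt⟩ := hT x hx
        calc (1 : ℝ) = (interior K).indicator (fun _ => (1 : ℝ)) (x - t) := by
              rw [Set.indicator_of_mem hxt]
          _ ≤ ∑ t ∈ T, (interior K).indicator (fun _ => (1 : ℝ)) (x - t) :=
              Finset.single_le_sum (f := fun t =>
                (interior K).indicator (fun _ => (1 : ℝ)) (x - t))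
                (fun _ _ => Set.indicator_nonneg (fun _ _ => zero_le_one) _) ht
    · push Not at hfrac
      obtain ⟨T, w, hw, hcov, hlt⟩ := hfrac
      exact ⟨T, w, hw, hlt.le, hcov⟩
  · intro hfrac
    obtain ⟨b', c', h', hh', hb'⟩ := hbox hfrac
    -- reindex
    obtain ⟨b, c, h, hh, hb⟩ : ∃ (b : Basis (Fin d) ℝ (Dual ℝ (EuclideanSpace ℝ (Fin d))))
        (c h : Fin d → ℝ), (∀ i, 0 < h i) ∧ K = {x | ∀ i, c i ≤ b i x ∧ b i x ≤ c i + h i} := by
      let e : Fin (finrank ℝ (EuclideanSpace ℝ (Fin d))) ≃ Fin d := finCongr hfr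
      refine ⟨b'.reindex e, fun i => c' (e.symm i), fun i => h' (e.symm i), fun i => hh' _, ?_⟩
      rw [hb']
      ext x
      simp only [Set.mem_ofPred_eq, Basis.coe_reindex, Function.comp_apply]
      constructor
      · intro hx i; exact hx _
      · intro hx i
        have := hx (e i)
        simpa using this
    -- dual vectors
    have hex : ∀ f : Fin d → ℝ, ∃ x : EuclideanSpace ℝ (Fin d), ∀ i, b i x = f i := by
      intro f
      refine ⟨(Module.evalEquiv ℝ (EuclideanSpace ℝ (Fin d))).symm (b.constr ℝ f), fun i => ?_⟩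
      rw [Module.apply_evalEquiv_symm_apply, Basis.constr_basis]
    choose g hg using hex
    -- points are determined by the values of the functionals
    have hinj : ∀ x y : EuclideanSpace ℝ (Fin d), (∀ i, b i x = b i y) → x = y := by
      intro x y hxy
      have h1 : ∀ f : Dual ℝ (EuclideanSpace ℝ (Fin d)), f (x - y) = 0 := by
        intro f
        have h2 : f = ∑ i, b.repr f i • b i := (b.sum_repr f).symm
        rw [h2]
        simp only [LinearMap.coe_sum, Finset.sum_apply, LinearMap.smul_apply, smul_eq_mul]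
        refine Finset.sum_eq_zero fun i _ => ?_
        rw [map_sub, hxy i, sub_self, mul_zero]
      exact sub_eq_zero.mp ((Module.forall_dual_apply_eq_zero_iff ℝ (x - y)).mp h1)
    have hval : ∀ (a : Fin d → ℝ) (j : Fin d),
        b j (∑ i, a i • g (fun k => if k = i then h i else 0)) = a j * h j := by
      intro a j
      rw [map_sum]
      simp only [map_smul, hg, smul_eq_mul]
      rw [Finset.sum_eq_single j]
      · simp
      · intro i _ hij
        rw [if_neg (Ne.symm hij), mul_zero]
      · intro h; exact absurd (Finset.mem_univ _) h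
    refine ⟨g c, fun i => g (fun j => if j = i then h i else 0), ?_, ?_⟩
    · rw [Fintype.linearIndependent_iff]
      intro a ha j
      have h1 := hval a j
      rw [ha, map_zero] at h1
      rcases mul_eq_zero.mp h1.symm with h2 | h2
      · exact h2
      · exact absurd h2 (hh j).ne'
    · rw [hb]
      ext x
      constructor
      · intro hx
        refine ⟨fun i => (b i x - c i) / h i, fun i => ⟨?_, ?_⟩, ?_⟩
        · exact div_nonneg (by linarith [(hx i).1]) (hh i).le
        · rw [div_le_one (hh i)]; linarith [(hx i).2]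
        · apply hinj
          intro j
          rw [map_add, hg, hval, div_mul_cancel₀ _ (hh j).ne']
          ring
      · rintro ⟨a, ha, rfl⟩ j
        rw [map_add, hg, hval]
        have h1 := ha j
        have h2 := hh j
        constructor
        · nlinarith [mul_nonneg h1.1 h2.le]
        · nlinarith [mul_le_mul_of_nonneg_right h1.2 h2.le]
  · rintro ⟨p, v, hv, hKe⟩ T w hw hcov
    exact box_lower d hd p v hv K hKe T w hw hcov

end Pool.Agent.H2R2.Frac
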