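import Mathlib

set_option autoImplicit false

/-!
# Fractional covering of convex bodies by translates of the interior: stubs

`P` is a convex body in a `d`-dimensional space `E` with Haar measure `vol`.
-/

namespace Pool.Agent.H2R2.Frac

open MeasureTheory Module
open scoped Pointwise ENNReal

section Gen

variable {E : Type*} [NormedAddCommGroup E] [NormedSpace ℝ E] [FiniteDimensional ℝ E]
  [MeasurableSpace E] [BorelSpace E]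

/-- T1 (Hahn-Banach + Riesz-Markov-Kakutani): LP duality for fractional coverings. -/
theorem exists_measure (P : Set E) (hPc : IsCompact P) (hPi : (interior P).Nonempty)
    (M : ℝ) (hM : 0 < M)
    (hfrac : ∀ (T : Finset E) (w : E → ℝ), (∀ t ∈ T, 0 ≤ w t) →
      (∀ x ∈ P, 1 ≤ ∑ t ∈ T, (interior P).indicator (fun _ => w t) (x - t)) →
      M ≤ ∑ t ∈ T, w t) :
    ∃ μ : Measure E, IsProbabilityMeasure μ ∧ μ Pᶜ = 0 ∧
      ∀ t, μ {x | x - t ∈ interior P} ≤ ENNReal.ofReal (1 / M) := by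
  sorry

/-- T2 (second moment): equality in Cauchy-Schwarz. -/
theorem tile_ae (vol : Measure E) [vol.IsAddHaarMeasure] (P : Set E) (hPc : IsCompact P)
    (hP : Convex ℝ P) (hPi : (interior P).Nonempty) (μ : Measure E) [IsProbabilityMeasure μ]
    (hμP : μ Pᶜ = 0)
    (hμ : ∀ t, μ {x | x - t ∈ interior P} ≤ ENNReal.ofReal (1 / 2 ^ finrank ℝ E)) :
    ∀ᵐ z ∂vol, z ∈ (2 : ℝ) • P → μ {x | z - x ∈ P} = ENNReal.ofReal (1 / 2 ^ finrank ℝ E) := by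
  sorry

/-- T3 (extreme points carry the measure). -/
theorem exists_vertices (vol : Measure E) [vol.IsAddHaarMeasure] (P : Set E) (hPc : IsCompact P)
    (hP : Convex ℝ P) (hPi : (interior P).Nonempty) (μ : Measure E) [IsProbabilityMeasure μ]
    (hμP : μ Pᶜ = 0)
    (hμ : ∀ t, μ {x | x - t ∈ interior P} ≤ ENNReal.ofReal (1 / 2 ^ finrank ℝ E))
    (htile : ∀ᵐ z ∂vol, z ∈ (2 : ℝ) • P →
      μ {x | z - x ∈ P} = ENNReal.ofReal (1 / 2 ^ finrank ℝ E)) :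
    ∃ V : Finset E, V.card = 2 ^ finrank ℝ E ∧ P = convexHull ℝ (V : Set E) ∧
      ∀ᵐ z ∂vol, z ∈ (2 : ℝ) • P → ∃! v, v ∈ V ∧ z - v ∈ P := by
  sorry

/-- T4a: the functional equation for volumes of slices. -/
theorem slice_eq (vol : Measure E) [vol.IsAddHaarMeasure] (P : Set E) (hPc : IsCompact P)
    (hP : Convex ℝ P) (V : Finset E) (hV : ∀ v ∈ V, v ∈ P)
    (htile : ∀ᵐ z ∂vol, z ∈ (2 : ℝ) • P → ∃! v, v ∈ V ∧ z - v ∈ P)
    (φ : E →ₗ[ℝ] ℝ) (c s : ℝ) :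
    2 ^ finrank ℝ E * vol.real {x | x ∈ P ∧ φ x < c + s / 2} =
      ∑ v ∈ V, vol.real {x | x ∈ P ∧ φ x < c + (s - (φ v - c))} := by
  sorry

/-- T4b: homothety with centre in a top point. -/
theorem slice_homothety (vol : Measure E) [vol.IsAddHaarMeasure] (P : Set E) (hPc : IsCompact P)
    (hP : Convex ℝ P) (φ : E →ₗ[ℝ] ℝ) (c h : ℝ) (z : E) (hz : z ∈ P) (hzh : φ z = c + h)
    (τ r r' : ℝ) (hτ : 0 ≤ τ) (hτ' : τ ≤ 1) (hr : r ≤ r') :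
    (1 - τ) ^ finrank ℝ E *
        (vol.real {x | x ∈ P ∧ φ x < c + r'} - vol.real {x | x ∈ P ∧ φ x < c + r}) ≤
      vol.real {x | x ∈ P ∧ φ x < c + (τ * h + (1 - τ) * r')} -
        vol.real {x | x ∈ P ∧ φ x < c + (τ * h + (1 - τ) * r)} := by
  sorry

/-- T4c: the real-variable lemma. -/
theorem two_values {ι : Type*} (V : Finset ι) (d : ℕ) (hd : 1 ≤ d) (hV : V.card = 2 ^ d)
    (a : ι → ℝ) (ha : ∀ v ∈ V, 0 ≤ a v) (h : ℝ) (hh : 0 < h) (hah : ∀ v ∈ V, a v ≤ h)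
    (G : ℝ → ℝ) (hmono : Monotone G) (h0 : ∀ s, s ≤ 0 → G s = 0)
    (hom : ∀ τ r r' : ℝ, 0 ≤ τ → τ ≤ 1 → r ≤ r' →
      (1 - τ) ^ d * (G r' - G r) ≤ G (τ * h + (1 - τ) * r') - G (τ * h + (1 - τ) * r))
    (heq : ∀ s, 0 < s → 2 ^ d * G (s / 2) = ∑ v ∈ V, G (s - a v))
    (c₀ s₀ : ℝ) (hc₀ : 0 < c₀) (hs₀ : 0 < s₀) (hlow : ∀ s, 0 < s → s < s₀ → c₀ * s ≤ G s) :
    ∀ v ∈ V, a v = 0 ∨ a v = h := by
  sorry

/-- T5: a polytope has facets transversal to every direction. -/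
theorem exists_facet (vol : Measure E) [vol.IsAddHaarMeasure] (V : Finset E)
    (hPi : (interior (convexHull ℝ (V : Set E))).Nonempty) (w : E) (hw : w ≠ 0) :
    ∃ (φ : E →ₗ[ℝ] ℝ) (c : ℝ), φ w ≠ 0 ∧ (∀ x ∈ convexHull ℝ (V : Set E), c ≤ φ x) ∧
      ∃ c₀ s₀ : ℝ, 0 < c₀ ∧ 0 < s₀ ∧ ∀ s, 0 < s → s < s₀ →
        c₀ * s ≤ vol.real {x | x ∈ convexHull ℝ (V : Set E) ∧ φ x < c + s} := by
  sorry

/-- T6: two-valued functionals and `2 ^ d` points: a parallelotope. -/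
theorem parallelotope (V : Finset E) (hV : V.card = 2 ^ finrank ℝ E)
    (htwo : ∀ w : E, w ≠ 0 → ∃ (φ : E →ₗ[ℝ] ℝ) (c h : ℝ), φ w ≠ 0 ∧ 0 < h ∧
      ∀ v ∈ V, φ v = c ∨ φ v = c + h) :
    ∃ (b : Basis (Fin (finrank ℝ E)) ℝ (Dual ℝ E)) (c h : Fin (finrank ℝ E) → ℝ),
      (∀ i, 0 < h i) ∧
      convexHull ℝ (V : Set E) = {x | ∀ i, c i ≤ b i x ∧ b i x ≤ c i + h i} := by
  sorry

end Gen

section Polar

open scoped InnerProductSpace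
open Metric

/-- T8: from fractional coverings of the polar body to fractional separation of the faces. -/
theorem transfer (d : ℕ) (K : Set (EuclideanSpace ℝ (Fin d))) (hKc : IsCompact K)
    (o : EuclideanSpace ℝ (Fin d)) (ho : o ∈ interior K)
    (T : Finset (EuclideanSpace ℝ (Fin d))) (w : EuclideanSpace ℝ (Fin d) → ℝ)
    (hw : ∀ t ∈ T, 0 ≤ w t)
    (hcov : ∀ x ∈ {v : EuclideanSpace ℝ (Fin d) | ∀ y ∈ K, ⟪v, y - o⟫_ℝ ≤ 1},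
      1 ≤ ∑ t ∈ T, (interior {v : EuclideanSpace ℝ (Fin d) |
        ∀ y ∈ K, ⟪v, y - o⟫_ℝ ≤ 1}).indicator (fun _ => w t) (x - t)) :
    ∃ (H : Finset (EuclideanSpace ℝ (Fin d) × ℝ)) (w' : EuclideanSpace ℝ (Fin d) × ℝ → ℝ),
      (∀ h ∈ H, 0 ≤ w' h) ∧ ∑ h ∈ H, w' h ≤ ∑ t ∈ T, w t ∧
      ∀ u : EuclideanSpace ℝ (Fin d), u ≠ 0 →
        1 ≤ ∑ h ∈ H, {h : EuclideanSpace ℝ (Fin d) × ℝ | ⟪h.1, o⟫_ℝ < h.2 ∧
          ∀ x ∈ K, (∀ y ∈ K, ⟪u, y⟫_ℝ ≤ ⟪u, x⟫_ℝ) → h.2 < ⟪h.1, x⟫_ℝ}.indicator w' h := by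
  sorry

/-- T9: if the polar body is a parallelotope, the body is a cross-body. -/
theorem cross_of_polar (d : ℕ) (K : Set (EuclideanSpace ℝ (Fin d))) (hKc : IsCompact K)
    (hK : Convex ℝ K) (o : EuclideanSpace ℝ (Fin d)) (ho : o ∈ interior K)
    (b : Basis (Fin d) ℝ (Dual ℝ (EuclideanSpace ℝ (Fin d)))) (c h : Fin d → ℝ)
    (hh : ∀ i, 0 < h i)
    (hP : {v : EuclideanSpace ℝ (Fin d) | ∀ y ∈ K, ⟪v, y - o⟫_ℝ ≤ 1} =
      {x | ∀ i, c i ≤ b i x ∧ b i x ≤ c i + h i}) :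
    ∃ (v : Fin d → EuclideanSpace ℝ (Fin d)) (t : Fin d → ℝ), LinearIndependent ℝ v ∧
      (∀ i, 0 < t i) ∧
      K = convexHull ℝ (Set.range (fun i => o + v i) ∪ Set.range (fun i => o - t i • v i)) := by
  sorry

/-- T10: a parallelotope is covered by `2 ^ d` translates of its interior. -/
theorem box_cover {E : Type*} [NormedAddCommGroup E] [NormedSpace ℝ E] [FiniteDimensional ℝ E]
    (b : Basis (Fin (finrank ℝ E)) ℝ (Dual ℝ E)) (c h : Fin (finrank ℝ E) → ℝ)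
    (hh : ∀ i, 0 < h i) (P : Set E) (hP : P = {x | ∀ i, c i ≤ b i x ∧ b i x ≤ c i + h i}) :
    ∃ T : Finset E, T.card ≤ 2 ^ finrank ℝ E ∧ ∀ x ∈ P, ∃ t ∈ T, x - t ∈ interior P := by
  sorry

/-- T11: cross-bodies need total weight `2 ^ d`. -/
theorem cross_lower (d : ℕ) (K : Set (EuclideanSpace ℝ (Fin d)))
    (o : EuclideanSpace ℝ (Fin d)) (v : Fin d → EuclideanSpace ℝ (Fin d)) (t : Fin d → ℝ)
    (hv : LinearIndependent ℝ v) (ht : ∀ i, 0 < t i)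
    (hK : K = convexHull ℝ (Set.range (fun i => o + v i) ∪ Set.range (fun i => o - t i • v i)))
    (hd : 1 ≤ d)
    (H : Finset (EuclideanSpace ℝ (Fin d) × ℝ)) (w : EuclideanSpace ℝ (Fin d) × ℝ → ℝ)
    (hw : ∀ h ∈ H, 0 ≤ w h)
    (hsep : ∀ u : EuclideanSpace ℝ (Fin d), u ≠ 0 →
        1 ≤ ∑ h ∈ H, {h : EuclideanSpace ℝ (Fin d) × ℝ | ⟪h.1, o⟫_ℝ < h.2 ∧
          ∀ x ∈ K, (∀ y ∈ K, ⟪u, y⟫_ℝ ≤ ⟪u, x⟫_ℝ) → h.2 < ⟪h.1, x⟫_ℝ}.indicator w h) :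
    2 ^ d ≤ ∑ h ∈ H, w h := by
  sorry

end Polar

end Pool.Agent.H2R2.Frac
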